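import Pool.Agent.SSF.St
import Pool.Agent.Helper64.Rho.Corank

/-!
# SNV, module Rk (helper86): rank and the orders of the groups `G[p]` (MP_ec93d3_co)

`rk_two`: if `|G[p]| ≤ p ^ 2` for all primes `p` then `G` has rank at most 2.
-/

set_option autoImplicit false

noncomputable section

open Finset Pool.Agent.Helper64.Rho
open scoped Classical

namespace Pool.Agent.SNV

section
variable {G : Type} [AddCommGroup G] [Finite G]

theorem prime_dvd_exp (p : ℕ) (hp : p.Prime) (h : p ∣ Nat.card G) : p ∣ AddMonoid.exponent G := by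
  have : Fact p.Prime := ⟨hp⟩
  obtain ⟨g, hg⟩ := exists_prime_addOrderOf_dvd_card' (G := G) p h
  rw [← hg]
  exact AddMonoid.addOrder_dvd_exponent g

theorem exp_pos' : 0 < AddMonoid.exponent G :=
  Nat.pos_of_ne_zero (AddMonoid.ExponentExists.of_finite (G := G)).exponent_ne_zero

/-- lifting of the elements killed by `p` -/
theorem lift_p (x : G) (hx : addOrderOf x = AddMonoid.exponent G) (p : ℕ) (hp : p.Prime)
    (hpe : p ∣ AddMonoid.exponent G) (z : G) (hz : p • z ∈ AddSubgroup.zmultiples x) :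
    ∃ w : G, p • w = 0 ∧ z - w ∈ AddSubgroup.zmultiples x := by
  obtain ⟨k, hk⟩ := AddSubgroup.mem_zmultiples_iff.1 hz
  obtain ⟨q, hq⟩ := hpe
  have hq0 : q ≠ 0 := by
    rintro rfl
    have := exp_pos' (G := G)
    rw [hq] at this
    omega
  have h1 : ((q : ℤ) * k) • x = 0 := by
    rw [mul_smul, hk, natCast_zsmul, ← mul_nsmul, ← hq]
    exact AddMonoid.exponent_nsmul_eq_zero z
  have h2 : ((addOrderOf x : ℕ) : ℤ) ∣ (q : ℤ) * k := addOrderOf_dvd_iff_zsmul_eq_zero.2 h1
  rw [hx, hq] at h2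
  have h3 : (p : ℤ) ∣ k := by
    obtain ⟨c, hc⟩ := h2
    refine ⟨c, ?_⟩
    have h4 : (q : ℤ) ≠ 0 := by exact_mod_cast hq0
    apply mul_left_cancel₀ h4
    rw [hc]
    push_cast
    ring
  obtain ⟨c, rfl⟩ := h3
  refine ⟨z - c • x, ?_, ?_⟩
  · rw [nsmul_sub, ← hk, mul_smul, natCast_zsmul, sub_self]
  · have h4 : z - (z - c • x) = c • x := by abel
    rw [h4]
    exact AddSubgroup.zsmul_mem_zmultiples x c

/-- the elements killed by `p` -/
def Kp (G : Type) [AddCommGroup G] (p : ℕ) : AddSubgroup G where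
  carrier := {x | p • x = 0}
  add_mem' := by
    intro a b ha hb
    show p • (a + b) = 0
    rw [nsmul_add, show p • a = 0 from ha, show p • b = 0 from hb, add_zero]
  zero_mem' := nsmul_zero p
  neg_mem' := by
    intro a ha
    show p • (-a) = 0
    rw [smul_neg, show p • a = 0 from ha, neg_zero]

omit [Finite G] in
theorem mem_Kp (p : ℕ) (x : G) : x ∈ Kp G p ↔ p • x = 0 := Iff.rfl

omit [Finite G] in
theorem card_Kp (p : ℕ) : Nat.card (Kp G p) = Nat.card {x : G // p • x = 0} := rfl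

/-- a multiple of an element of maximal order that has order `p` -/
theorem ex_u (x : G) (hx : addOrderOf x = AddMonoid.exponent G) (p : ℕ) (hp : p.Prime)
    (hpe : p ∣ AddMonoid.exponent G) : ∃ u ∈ AddSubgroup.zmultiples x, addOrderOf u = p := by
  obtain ⟨q, hq⟩ := hpe
  have hq0 : q ≠ 0 := by
    rintro rfl
    have := exp_pos' (G := G)
    rw [hq] at this
    omega
  refine ⟨q • x, AddSubgroup.nsmul_mem_zmultiples x q, ?_⟩
  rw [addOrderOf_nsmul' x hq0, hx, hq, Nat.gcd_eq_right (Dvd.intro_left p rfl)]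
  exact Nat.mul_div_cancel p (Nat.pos_of_ne_zero hq0)

/-- at most `p` elements killed by `p` for all primes `p`: the group is cyclic -/
theorem cyc_of_Kp (h : ∀ p : ℕ, p.Prime → Nat.card {x : G // p • x = 0} ≤ p) : ∃ x : G, AddSubgroup.zmultiples x = ⊤ := by
  obtain ⟨x, hx⟩ := AddMonoid.exists_addOrderOf_eq_exponent (AddMonoid.ExponentExists.of_finite (G := G))
  refine ⟨x, ?_⟩
  by_contra hne
  obtain ⟨Q, hQ⟩ : ∃ Q, Q = Nat.card (G ⧸ AddSubgroup.zmultiples x) := ⟨_, rfl⟩
  have hQ1 : Q ≠ 1 := by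
    rw [hQ]
    intro h1
    exact hne (AddSubgroup.index_eq_one.1 h1)
  obtain ⟨p, hp, hpQ⟩ := Nat.exists_prime_and_dvd hQ1
  have : Fact p.Prime := ⟨hp⟩
  have hpG : p ∣ Nat.card G := by
    rw [AddSubgroup.card_eq_card_quotient_mul_card_addSubgroup (AddSubgroup.zmultiples x), ← hQ]
    exact Dvd.dvd.mul_right hpQ _
  have hpe := prime_dvd_exp p hp hpG
  rw [hQ] at hpQ
  obtain ⟨y, hy⟩ := exists_prime_addOrderOf_dvd_card' (G := G ⧸ AddSubgroup.zmultiples x) p hpQ
  obtain ⟨z, rfl⟩ := QuotientAddGroup.mk_surjective y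
  have hz0 : z ∉ AddSubgroup.zmultiples x := by
    intro h1
    rw [(QuotientAddGroup.eq_zero_iff z).2 h1, addOrderOf_zero] at hy
    exact hp.one_lt.ne hy
  have hz1 : p • z ∈ AddSubgroup.zmultiples x := by
    rw [← QuotientAddGroup.eq_zero_iff, QuotientAddGroup.mk_nsmul, ← hy]
    exact addOrderOf_nsmul_eq_zero _
  obtain ⟨w, hw1, hw2⟩ := lift_p x hx p hp hpe z hz1
  obtain ⟨u, hu1, hu2⟩ := ex_u x hx p hp hpe
  have hle : AddSubgroup.zmultiples u ≤ Kp G p := by
    rw [AddSubgroup.zmultiples_le, mem_Kp, ← hu2]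
    exact addOrderOf_nsmul_eq_zero u
  have heq : AddSubgroup.zmultiples u = Kp G p := by
    apply AddSubgroup.eq_of_le_of_card_ge hle
    rw [Nat.card_zmultiples, hu2, card_Kp]
    exact h p hp
  have hw : w ∈ AddSubgroup.zmultiples x := by
    have h1 : w ∈ Kp G p := hw1
    rw [← heq] at h1
    exact (AddSubgroup.zmultiples_le.2 hu1) h1
  apply hz0
  have h1 : z = (z - w) + w := by abel
  rw [h1]
  exact AddSubgroup.add_mem _ hw2 hw

/-- **rank at most two** -/
theorem rk_two (h : Pool.Agent.SSF.R2 G) : crk (⊥ : AddSubgroup G) ≤ 2 := by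
  obtain ⟨x, hx⟩ := AddMonoid.exists_addOrderOf_eq_exponent (AddMonoid.ExponentExists.of_finite (G := G))
  obtain ⟨X, hX⟩ : ∃ X, X = AddSubgroup.zmultiples x := ⟨_, rfl⟩
  have hq : ∀ p : ℕ, p.Prime → Nat.card {y : G ⧸ X // p • y = 0} ≤ p := by
    intro p hp
    by_cases hpe : p ∣ AddMonoid.exponent G
    · obtain ⟨u, hu1, hu2⟩ := ex_u x hx p hp hpe
      obtain ⟨ψ, hψ⟩ : ∃ ψ : Kp G p →+ G ⧸ X, ψ = (QuotientAddGroup.mk' X).comp (Kp G p).subtype := ⟨_, rfl⟩
      have h1 : Nat.card ψ.range * Nat.card ψ.ker = Nat.card (Kp G p) := by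
        rw [mul_comm, ← AddSubgroup.index_ker, AddSubgroup.card_mul_index]
      have h2 : p ≤ Nat.card ψ.ker := by
        have huK : u ∈ Kp G p := by
          rw [mem_Kp, ← hu2]
          exact addOrderOf_nsmul_eq_zero u
        have h3 : AddSubgroup.zmultiples (⟨u, huK⟩ : Kp G p) ≤ ψ.ker := by
          rw [AddSubgroup.zmultiples_le, AddMonoidHom.mem_ker, hψ]
          show (QuotientAddGroup.mk u : G ⧸ X) = 0
          rw [QuotientAddGroup.eq_zero_iff, hX]
          exact hu1
        have h4 : Nat.card (AddSubgroup.zmultiples (⟨u, huK⟩ : Kp G p)) = p := by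
          rw [Nat.card_zmultiples]
          exact (addOrderOf_injective (Kp G p).subtype (Kp G p).subtype_injective ⟨u, huK⟩).symm.trans hu2
        exact h4.symm.le.trans
          (Nat.card_le_card_of_injective (AddSubgroup.inclusion h3) (AddSubgroup.inclusion_injective h3))
      have h3 : Nat.card (Kp G p) ≤ p ^ 2 := h p hp
      have h4 : Nat.card ψ.range ≤ p := by
        have hp0 : 0 < p := hp.pos
        have h5 : Nat.card ψ.range * p ≤ p * p := by
          calc Nat.card ψ.range * p ≤ Nat.card ψ.range * Nat.card ψ.ker := Nat.mul_le_mul_left _ h2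
            _ ≤ p * p := by rw [h1, ← pow_two]; exact h3
        exact Nat.le_of_mul_le_mul_right h5 hp0
      refine le_trans ?_ h4
      refine Nat.card_le_card_of_injective (fun y : {y : G ⧸ X // p • y = 0} => (⟨y.1, ?_⟩ : ψ.range)) ?_
      · obtain ⟨y, hy⟩ := y
        obtain ⟨z, rfl⟩ := QuotientAddGroup.mk_surjective y
        have hz1 : p • z ∈ AddSubgroup.zmultiples x := by
          rw [← hX, ← QuotientAddGroup.eq_zero_iff, QuotientAddGroup.mk_nsmul]
          exact hy
        obtain ⟨w, hw1, hw2⟩ := lift_p x hx p hp hpe z hz1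
        refine ⟨⟨w, hw1⟩, ?_⟩
        rw [hψ]
        show (QuotientAddGroup.mk w : G ⧸ X) = QuotientAddGroup.mk z
        rw [QuotientAddGroup.eq, hX]
        have h5 : -w + z = z - w := by abel
        rw [h5]
        exact hw2
      · intro a b hab
        have h5 : ((⟨a.1, _⟩ : ψ.range) : G ⧸ X) = ((⟨b.1, _⟩ : ψ.range) : G ⧸ X) := congrArg Subtype.val hab
        exact Subtype.ext h5
    · have h1 : ∀ y : {y : G ⧸ X // p • y = 0}, y = ⟨0, nsmul_zero p⟩ := by
        rintro ⟨y, hy⟩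
        apply Subtype.ext
        show y = 0
        have h2 : addOrderOf y ∣ p := addOrderOf_dvd_of_nsmul_eq_zero hy
        have h3 : addOrderOf y ∣ AddMonoid.exponent G :=
          (AddMonoid.addOrder_dvd_exponent y).trans (AddMonoidHom.exponent_dvd (QuotientAddGroup.mk'_surjective X))
        rcases (Nat.dvd_prime hp).1 h2 with h4 | h4
        · exact AddMonoid.addOrderOf_eq_one_iff.1 h4
        · exact absurd (h4 ▸ h3) hpe
      have h2 : Subsingleton {y : G ⧸ X // p • y = 0} := ⟨fun a b => by rw [h1 a, h1 b]⟩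
      have h3 : Nat.card {y : G ⧸ X // p • y = 0} ≤ 1 := Finite.card_le_one_iff_subsingleton.2 h2
      exact h3.trans hp.one_lt.le
  obtain ⟨y, hy⟩ := cyc_of_Kp hq
  obtain ⟨z, rfl⟩ := QuotientAddGroup.mk_surjective y
  have h1 : X ⊔ AddSubgroup.zmultiples z = ⊤ := by
    rw [eq_top_iff]
    intro g _
    have h2 : (QuotientAddGroup.mk g : G ⧸ X) ∈ AddSubgroup.zmultiples (QuotientAddGroup.mk z : G ⧸ X) :=
      hy ▸ AddSubgroup.mem_top _
    obtain ⟨k, hk⟩ := AddSubgroup.mem_zmultiples_iff.1 h2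
    rw [← QuotientAddGroup.mk_zsmul, QuotientAddGroup.eq] at hk
    have h3 : g = (-(k • z) + g) + k • z := by abel
    rw [h3]
    exact AddSubgroup.add_mem_sup hk (AddSubgroup.zsmul_mem_zmultiples z k)
  have h2 := crk_sup_le (⊥ : AddSubgroup G) x
  have h3 := crk_sup_le X z
  rw [bot_sup_eq, ← hX] at h2
  rw [h1, crk_top] at h3
  omega

end

end Pool.Agent.SNV
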