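import Pool.Agent.SNV.L1
import Pool.Agent.SNV.Rk
import Pool.Agent.SBN.St
import Pool.Agent.SNA.Al
import Pool.Agent.SNR.Sg
import Pool.Agent.SNT.All2
import Pool.Agent.SZC.St

/-!
# SNV, module Fin (helper86): the final statement for all finite abelian groups from the remaining hypotheses (MP_ec93d3_co)

`lev_up`: a window value of level `m` is at most `2 ^ (m - 1) * ((t + 3 - m) ^ 2 / 4)`.
`thm_TopR`: the top level, from `SNA.thm_A3`.
`thm_WinR`: the windows from level 1 (`win1`), level 2 (`SBN.St_Win2`) and `St_WIN3` (levels at least 3).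
`thm_Final`: the exact value from `St_WmR` (`h ≥ 2`), `SBN.St_Win2`, `St_WIN3` and `SZC.St_Fin`.
-/

set_option autoImplicit false

noncomputable section

open Finset Pool.Agent.Helper64.Rho
open scoped Classical Pointwise

namespace Pool.Agent.SNV

open Pool.Agent.SDG Pool.Agent.SNW Pool.Agent.SNR Pool.Agent.SNU

/-- the windows of level at least 3 (helper48): no member outside the group of the others, rank larger than the level -/
def St_WIN3 : Prop :=
  ∀ (G ι : Type) [AddCommGroup G] [Finite G] (m : ℕ) (s : Finset ι) (f : ι → G), 3 ≤ m → m < crk (⊥ : AddSubgroup G) →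
    (∀ i ∈ s, f i ≠ 0) → Cap 2 s f → Aper (FS s f) → gen s f = ⊤ → (∀ i ∈ s, gen (s.erase i) f = ⊤) →
      GR m (⊥ : AddSubgroup G) (FS s f).card → 2 ^ (m - 1) * ((s.card + 3 - m) ^ 2 / 4) ≤ (FS s f).card

/-! ### numbers -/

theorem win_num (l y : ℕ) (hl : 1 ≤ l) : l * cf (2 * l) y ≤ (y + l + 1) ^ 2 / 4 := by
  rw [Nat.le_div_iff_mul_le (by norm_num)]
  have hr : y % (2 * l) ≤ 2 * l := (Nat.mod_lt _ (by omega)).le
  have hu : 2 * l * (y / (2 * l)) + y % (2 * l) = y := Nat.div_add_mod y _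
  have h1 := all_Nm1.2.1 (2 * l) (y / (2 * l)) (y % (2 * l)) (by omega) hr
  rw [hu] at h1
  obtain ⟨b, hb⟩ : ∃ b, b = y / (2 * l) := ⟨_, rfl⟩
  obtain ⟨r, hr'⟩ : ∃ r, r = y % (2 * l) := ⟨_, rfl⟩
  rw [← hb, ← hr'] at h1 hu
  obtain ⟨C, hC⟩ : ∃ C, C = cf (2 * l) y := ⟨_, rfl⟩
  rw [← hC] at h1 ⊢
  have h2 : (2 : ℤ) * C = 2 + 2 * l * b * (b + 1) + 2 * r * (b + 1) := by exact_mod_cast h1
  have h3 : (2 : ℤ) * l * b + r = y := by exact_mod_cast hu
  have h4 : (l : ℤ) * C * 4 ≤ ((y : ℤ) + l + 1) ^ 2 := by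
    have h5 : (l : ℤ) * C * 4 = 2 * l * (2 * C) := by ring
    rw [h5, h2, ← h3]
    have h6 : (0 : ℤ) ≤ ((l : ℤ) - (r + 1)) ^ 2 := sq_nonneg _
    have h7 : (0 : ℤ) ≤ (l : ℤ) * b := by positivity
    nlinarith
  exact_mod_cast h4

section
variable {G : Type} [AddCommGroup G] [Finite G]

/-- the value of a subgroup of level `m` -/
theorem lev_up (m t X : ℕ) (H : AddSubgroup G) (hm : 1 ≤ m) (hH : crk H = m) (h1 : Nat.card H * 2 ^ m ≤ X)
    (h2 : 2 ^ (m - 1) * ((t + 3 - m) ^ 2 / 4) ≤ X) : upx G t ≤ X := by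
  have hHT : H ≠ ⊤ := by
    rintro rfl
    rw [crk_top] at hH
    omega
  refine (upx_le_valr t H hHT).trans ?_
  unfold valr
  rw [hH]
  obtain ⟨l, hl⟩ : ∃ l, l = Nat.card H := ⟨_, rfl⟩
  have hl1 : 1 ≤ l := hl ▸ Nat.card_pos
  rw [← hl] at h1 ⊢
  rcases Nat.lt_or_ge (t + 1) (l + m) with h3 | h3
  · have h4 : max 1 (t + 2 - l - m) = 1 := by omega
    rw [h4, cf_one, mul_assoc, ← pow_succ]
    have h5 : m - 1 + 1 = m := by omega
    rw [h5]
    exact h1
  · have h4 : max 1 (t + 2 - l - m) = t + 2 - l - m := by omega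
    rw [h4]
    have h5 := win_num l (t + 2 - l - m) hl1
    have h6 : t + 2 - l - m + l + 1 = t + 3 - m := by omega
    rw [h6] at h5
    calc l * 2 ^ (m - 1) * cf (2 * l) (t + 2 - l - m) = 2 ^ (m - 1) * (l * cf (2 * l) (t + 2 - l - m)) := by ring
      _ ≤ 2 ^ (m - 1) * ((t + 3 - m) ^ 2 / 4) := Nat.mul_le_mul_left _ h5
      _ ≤ X := h2

end

/-! ### the top level -/

theorem thm_TopR : St_TopR := by
  intro G ι _ _ m s f hm hm3 h0 hc hA hg hge hG
  have h1 := Pool.Agent.SNA.thm_A3 m hm3 G ι s f h0 hc hA hg hG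
  have h2 : m ≤ s.card := hm ▸ crk_bot_le s f hg
  obtain ⟨q, rfl⟩ : ∃ q, m = q + 3 := ⟨m - 3, by omega⟩
  have e1 : q + 3 - 3 = q := by omega
  have e2 : q + 3 - 1 = q + 2 := by omega
  have e3 : q + 3 - 2 = q + 1 := by omega
  rw [e1] at h1
  rw [e1, e2, e3]
  unfold Pool.Agent.SNA.PQ at h1
  split_ifs at h1 with h3 h4 h5
  · right; left
    refine ⟨by omega, by omega, ?_⟩
    have h6 : 9 * 2 ^ (q + 1) = 2 ^ q * 18 := by rw [pow_succ]; ring
    omega
  · right; right; right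
    refine ⟨by omega, by omega, ?_⟩
    omega
  · right; right; left
    refine ⟨by omega, by omega, ?_⟩
    have h6 : 19 * 2 ^ (q + 1) = 2 ^ q * 38 := by rw [pow_succ]; ring
    omega
  · left
    have h6 : 2 ^ (q + 2) * cf 2 (s.card + 1 - (q + 3)) = 2 ^ q * (4 * cf 2 (s.card + 1 - (q + 3))) := by
      rw [pow_add]
      ring
    omega

/-! ### the windows -/

theorem thm_WinR (hN : ∀ (G : Type) [AddCommGroup G] [Finite G], 3 ≤ crk (⊥ : AddSubgroup G) → Pool.Agent.SZC.NF3 G)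
    (h2 : Pool.Agent.SBN.St_Win2) (h3 : St_WIN3) : St_WinR := by
  intro G ι _ _ m s f H hr hm h0 hc hA hg hge hG hmr hH hmin hHX
  have hcyc : ¬ IsAddCyclic G := by
    intro h
    have := crk_cyc h
    omega
  rcases Nat.lt_or_ge m 3 with hm3 | hm3
  · rcases Nat.lt_or_ge m 2 with hm2 | hm2
    · obtain rfl : m = 1 := by omega
      rw [pow_one] at hHX
      exact win1 hr (Pool.Agent.SNT.all_M1Pr G hcyc) (hN G hr) s f H h0 hc hA hg hH hmin hHX
    · obtain rfl : m = 2 := by omega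
      exact h2 G ι s f H h0 hc hA hg hge hG hmr hH hHX
  · exact lev_up m s.card _ H hm hH hHX (h3 G ι m s f hm3 hmr h0 hc hA hg hge hG)

/-- the rank is at least 3 if the group is not of rank at most 2 in the sense of `SSF.R2` -/
theorem not_R2 (G : Type) [AddCommGroup G] [Finite G] (h : 3 ≤ crk (⊥ : AddSubgroup G)) : ¬ Pool.Agent.SSF.R2 G := by
  intro h2
  have := rk_two h2
  omega

/-- **The exact value for all finite abelian groups, from the remaining statements.** -/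
theorem thm_Final (hWm : St_WmR) (h2 : Pool.Agent.SBN.St_Win2) (h3 : St_WIN3) (hN : Pool.Agent.SZC.St_Fin)
    (G : Type) [AddCommGroup G] [Finite G] (m : ℕ) :
    ((sizes G m).Nonempty ↔ rk G ≤ m ∧ m < Nat.card G) ∧ ((sizes G m).Nonempty → rho G m = upx G m) := by
  have hN3 : ∀ (G : Type) [AddCommGroup G] [Finite G], 3 ≤ crk (⊥ : AddSubgroup G) → Pool.Agent.SZC.NF3 G := by
    intro G _ _ hr
    have hcyc : ¬ IsAddCyclic G := by
      intro h
      have := crk_cyc h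
      omega
    exact hN G (not_R2 G hr) (Pool.Agent.SNT.all_M1Pr G hcyc)
  have hSm : St_SmR := fun G ι _ _ h m s f hh hm h0 hc hA hg hG => thm_Sm h hh m hm G ι s f h0 hc hA hg hG
  refine thm_All hSm hWm (thm_Drop fun G _ _ => ?_) G m
  rcases Nat.lt_or_ge (crk (⊥ : AddSubgroup G)) 3 with hr | hr
  · intro ι s f h0 hc hA hg hbt _
    exact OneP_two (by omega) ι s f h0 hc hA hg hbt
  · exact thm_ND thm_TopR (thm_WinR hN3 h2 h3) G hr

end Pool.Agent.SNV
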