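import Pool.Agent.SNV.Fin

/-!
# SNV, module Ex (helper86): the final statement with the rank of the group itself (MP_ec93d3_co)
-/

set_option autoImplicit false

noncomputable section

open Finset Pool.Agent.Helper64.Rho
open scoped Classical Pointwise

namespace Pool.Agent.SNV

open Pool.Agent.SDG Pool.Agent.SNW Pool.Agent.SNR Pool.Agent.SNU

theorem rk_eq (G : Type) [AddCommGroup G] [Finite G] : rk G = AddGroup.rank G :=
  AddGroup.rank_congr (QuotientAddGroup.quotientBot (G := G))

/-- the value with `AddGroup.rank` -/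
theorem valr_eq {G : Type} [AddCommGroup G] [Finite G] (m : ℕ) (H : AddSubgroup G) :
    valr m H = Nat.card H * 2 ^ (AddGroup.rank (G ⧸ H) - 1) *
      (1 + ∑ i ∈ range (max 1 (m + 2 - Nat.card H - AddGroup.rank (G ⧸ H))), (i / (2 * Nat.card H) + 1)) := rfl

end Pool.Agent.SNV
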