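import Pool.Agent.SNV.Ex
import Pool.Agent.SRG.Win
import Pool.Agent.SZC.Main
import Pool.Agent.SBN.Win2
import Pool.Agent.SNR.WSt

/-!
# SNV, module Pre (helper86): the final statement from `SBN.St_ND2` and `SNR.St_NDw` alone (MP_ec93d3_co)
-/

set_option autoImplicit false

noncomputable section

open Finset Pool.Agent.Helper64.Rho
open scoped Classical Pointwise

namespace Pool.Agent.SNV

open Pool.Agent.SDG Pool.Agent.SNW Pool.Agent.SNR Pool.Agent.SNU

theorem win3_of (h : St_NDw) : St_WIN3 := by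
  intro G ι _ _ m s f hm hr h0 hc hA hg hge hG
  have h1 := h m G ι s f (by omega) (by omega) h0 hc hA hg hge hG
  have h2 : m + 1 ≤ s.card := by
    have h4 := crk_bot_le s f hg
    omega
  unfold Pool.Agent.SBN.U at h1
  have h3 : s.card + 2 - m + 1 = s.card + 3 - m := by omega
  have h4 : (2 : ℕ) ^ (m - 1) = 2 ^ (m - 2) * 2 := by
    rw [← pow_succ]
    congr 1
    omega
  rw [h3] at h1
  rw [h4, mul_assoc]
  exact h1

/-- **The exact value for all finite abelian groups, from the two remaining statements.** -/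
theorem final_of (hN : Pool.Agent.SBN.St_ND2) (h3 : St_NDw) (G : Type) [AddCommGroup G] [Finite G] (m : ℕ) :
    ((sizes G m).Nonempty ↔ rk G ≤ m ∧ m < Nat.card G) ∧ ((sizes G m).Nonempty → rho G m = upx G m) :=
  thm_Final Pool.Agent.SRG.all_WmR (Pool.Agent.SBN.thm_Win2 hN) (win3_of h3) Pool.Agent.SZC.all_Fin G m

end Pool.Agent.SNV
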