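import Pool.Agent.SNU.Upx
import Pool.Agent.SNR.Gm
import Pool.Agent.SNW.Lo2

/-!
# SNV, module Asm (helper86): the assembly of the lower bound `upx` for all finite abelian groups (MP_ec93d3_co)

Statements (each one a hypothesis of the assembly):
`St_SmR`: `S_m`, families with at most `2 h` members `± x`, `h ≥ 2`, level `m`.
`St_WmR`: the window of level `m` for `h ≥ 2`: a subgroup `H` of least order among those with `rank (G / H) = m < rank G`.
`St_TopR`: `h = 1`, top level.
`St_WinR`: `h = 1`, the levels below the rank.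
`thm_ND`: for rank at least 3 `St_TopR` and `St_WinR` imply `OneND`, the lower bound for aperiodic sums if no member is outside the group of
the others.  (`SNV/Drop.lean`: `OneND` for all groups implies `OneP` for all groups.)
`thm_Low`: the lower bound, `thm_All`: the final statement `rho G m = upx G m`.
-/

set_option autoImplicit false

noncomputable section

open Finset Pool.Agent.Helper64.Rho
open scoped Classical Pointwise

namespace Pool.Agent.SNV

open Pool.Agent.SDG Pool.Agent.SNW Pool.Agent.SNR Pool.Agent.SNU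

/-! ### the statements -/

/-- `S_m` for `h ≥ 2` -/
def St_SmR : Prop :=
  ∀ (G ι : Type) [AddCommGroup G] [Finite G] (h m : ℕ) (s : Finset ι) (f : ι → G), 2 ≤ h → 1 ≤ m →
    (∀ i ∈ s, f i ≠ 0) → Cap (2 * h) s f → Aper (FS s f) → gen s f = ⊤ →
      GR m (⊥ : AddSubgroup G) (FS s f).card → 2 ^ (m - 1) * cf (2 * h) (s.card + 1 - m) ≤ (FS s f).card

/-- the window of level `m` for `h ≥ 2`; `H` has the least order among the subgroups with `rank (G / H) = m` -/
def St_WmR : Prop :=
  ∀ (G ι : Type) [AddCommGroup G] [Finite G] (h m : ℕ) (s : Finset ι) (f : ι → G) (H : AddSubgroup G), 2 ≤ h → 1 ≤ m →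
    (∀ i ∈ s, f i ≠ 0) → Cap (2 * h) s f → Aper (FS s f) → gen s f = ⊤ →
      GR m (⊥ : AddSubgroup G) (FS s f).card → m < crk (⊥ : AddSubgroup G) → crk H = m →
        (∀ L : AddSubgroup G, crk L = m → Nat.card H ≤ Nat.card L) → Nat.card H * 2 ^ m ≤ (FS s f).card →
          h * (Nat.card H - 1) + m ≤ s.card →
            2 ^ (m - 1) * (Nat.card H * cf (2 * (h * Nat.card H)) (s.card + 1 + h - m - h * Nat.card H)) ≤ (FS s f).card

/-- `h = 1`, top level: `m` is the rank (at least 3); no member outside the group of the others -/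
def St_TopR : Prop :=
  ∀ (G ι : Type) [AddCommGroup G] [Finite G] (m : ℕ) (s : Finset ι) (f : ι → G), m = crk (⊥ : AddSubgroup G) → 3 ≤ m →
    (∀ i ∈ s, f i ≠ 0) → Cap 2 s f → Aper (FS s f) → gen s f = ⊤ → (∀ i ∈ s, gen (s.erase i) f = ⊤) →
    GR m (⊥ : AddSubgroup G) (FS s f).card →
      2 ^ (m - 1) * cf 2 (s.card + 1 - m) ≤ (FS s f).card ∨
        (2 ≤ m ∧ s.card = m + 2 ∧ 9 * 2 ^ (m - 2) ≤ (FS s f).card) ∨
        (2 ≤ m ∧ s.card = m + 4 ∧ 19 * 2 ^ (m - 2) ≤ (FS s f).card) ∨
        (3 ≤ m ∧ s.card = m + 3 ∧ 27 * 2 ^ (m - 3) ≤ (FS s f).card)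

/-- `h = 1`, level `m < rank G`, rank at least 3; `H` has the least order among the subgroups with `rank (G / H) = m`;
no member outside the group of the others -/
def St_WinR : Prop :=
  ∀ (G ι : Type) [AddCommGroup G] [Finite G] (m : ℕ) (s : Finset ι) (f : ι → G) (H : AddSubgroup G),
    3 ≤ crk (⊥ : AddSubgroup G) → 1 ≤ m →
    (∀ i ∈ s, f i ≠ 0) → Cap 2 s f → Aper (FS s f) → gen s f = ⊤ → (∀ i ∈ s, gen (s.erase i) f = ⊤) →
      GR m (⊥ : AddSubgroup G) (FS s f).card → m < crk (⊥ : AddSubgroup G) → crk H = m →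
        (∀ L : AddSubgroup G, crk L = m → Nat.card H ≤ Nat.card L) → Nat.card H * 2 ^ m ≤ (FS s f).card →
          upx G s.card ≤ (FS s f).card

/-! ### levels -/

section
variable {G : Type} [AddCommGroup G] [Finite G]

theorem upx_le_card (m : ℕ) : upx G m ≤ Nat.card G := Nat.sInf_le (Or.inl (Or.inl rfl))

theorem upx_le_valr (m : ℕ) (H : AddSubgroup G) (hH : H ≠ ⊤) : upx G m ≤ valr m H :=
  Nat.sInf_le (Or.inl (Or.inr ⟨H, hH, rfl⟩))

theorem upx_le_Exc (m v : ℕ) (h : Exc G m v) : upx G m ≤ v := Nat.sInf_le (Or.inr h)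

/-- the level of a number: either all levels are satisfied up to the rank, or there is a least subgroup -/
theorem level (n r : ℕ) (hr : 1 ≤ r) (h1 : n < Nat.card G) :
    GR r (⊥ : AddSubgroup G) n ∨ ∃ (m : ℕ) (H : AddSubgroup G), 1 ≤ m ∧ m < r ∧ GR m (⊥ : AddSubgroup G) n ∧ crk H = m ∧
      (∀ L : AddSubgroup G, crk L = m → Nat.card H ≤ Nat.card L) ∧ Nat.card H * 2 ^ m ≤ n := by
  induction r with
  | zero => omega
  | succ r ih =>
    rcases Nat.eq_zero_or_pos r with hr0 | hr0
    · left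
      subst hr0
      intro H _ hH
      have h2 : crk H = 0 := by omega
      have h3 : H = ⊤ := by
        by_contra h4
        have := crk_pos h4
        omega
      rw [h3, crk_top, pow_zero, mul_one, AddSubgroup.card_top]
      exact h1
    · rcases ih hr0 with h2 | ⟨m, H, h2, h3, h4⟩
      · by_cases h3 : GR (r + 1) (⊥ : AddSubgroup G) n
        · exact Or.inl h3
        · right
          unfold GR at h3
          push Not at h3
          obtain ⟨H0, -, h5, h6⟩ := h3
          have h7 : crk H0 = r := by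
            by_contra h8
            have := h2 H0 bot_le (by omega)
            omega
          have hne : Nonempty {L : AddSubgroup G // crk L = r} := ⟨⟨H0, h7⟩⟩
          obtain ⟨⟨H, hH⟩, hmin⟩ := Finite.exists_min (fun L : {L : AddSubgroup G // crk L = r} => Nat.card L.1)
          refine ⟨r, H, hr0, by omega, h2, hH, fun L hL => hmin ⟨L, hL⟩, ?_⟩
          rw [h7] at h6
          exact (Nat.mul_le_mul_right _ (hmin ⟨H0, h7⟩)).trans h6
      · exact Or.inr ⟨m, H, h2, by omega, h4⟩

/-- the rank of a quotient, exact -/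
theorem crk_comap_eq {K : Type} [AddCommGroup K] [Finite K] (π : G →+ K) (hs : Function.Surjective π)
    (L : AddSubgroup K) : crk (L.comap π) = crk L := by
  apply le_antisymm (crk_comap π hs L)
  obtain ⟨S, hS, hg⟩ := exists_crk (L.comap π)
  rw [← hS]
  refine (crk_le (S := S.image π) ?_).trans card_image_le
  have h1 : (L.comap π ⊔ AddSubgroup.closure (S : Set G)).map π = ⊤ := by
    rw [hg]
    exact AddSubgroup.map_top_of_surjective π hs
  rw [AddSubgroup.map_sup, AddMonoidHom.map_closure] at h1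
  rw [eq_top_iff, ← h1, coe_image]
  exact sup_le_sup_right (AddSubgroup.map_comap_le _ _) _

theorem comap_ne_top {K : Type} [AddCommGroup K] (π : G →+ K) (hs : Function.Surjective π)
    (L : AddSubgroup K) (hL : L ≠ ⊤) : L.comap π ≠ ⊤ := by
  intro h1
  apply hL
  rw [eq_top_iff]
  intro z _
  obtain ⟨w, rfl⟩ := hs z
  have h2 : w ∈ L.comap π := h1 ▸ AddSubgroup.mem_top w
  exact h2

end

/-! ### the quotient by the periods -/

/-- the quotient by the periods, `h ≥ 2`, abstract form -/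
theorem quot_case (hSm : St_SmR) (hWm : St_WmR) (G K : Type) [AddCommGroup G] [Finite G] [AddCommGroup K] [Finite K]
    (π : G →+ K) (P : AddSubgroup G) (hs : Function.Surjective π) (hk : ∀ x, π x = 0 ↔ x ∈ P)
    (hc : Nat.card G = Nat.card P * Nat.card K)
    (A : Finset G) (hgen : AddSubgroup.closure (A : Set G) = ⊤)
    (hP : P = per (FS A (id : G → G))) (hP2 : 2 ≤ Nat.card P) (hPT : P ≠ ⊤)
    (htm : A.card + 1 ≤ (A.filter fun a => a ∉ P).card + Nat.card P) :
    upx G A.card ≤ (FS A (id : G → G)).card := by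
  have hPm : ∀ g, g ∈ P ↔ ∀ x ∈ FS A (id : G → G), x + g ∈ FS A (id : G → G) :=
    fun g => by rw [hP]; exact mem_per
  have hst : st (FS A (id : G → G)) P = FS A (id : G → G) := by
    conv_lhs => rw [hP]
    exact st_per _
  have hq1 := q_card A (id : G → G) hk
  rw [hst] at hq1
  have hq2 := q_aper A (id : G → G) hs hk (by
    rw [hst]
    intro g hg
    exact (hPm g).2 hg)
  have hq3 := q_ne A (id : G → G) hk
  have hq4 := q_cap A (id : G → G) hs hk 2 (cap_id A)
  have hq5 := q_gen A (id : G → G) hs hk (by rw [gen_id]; exact hgen)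
  obtain ⟨t, ht⟩ : ∃ t, t = (A.filter fun a => a ∉ P).card := ⟨_, rfl⟩
  have hq6 : (A.filter fun i => (id i : G) ∉ P).card = t := by rw [ht]; rfl
  rw [← ht] at htm
  obtain ⟨X, hX⟩ : ∃ X, X = (FS (A.filter fun i => (id i : G) ∉ P) fun i => π (id i)).card := ⟨_, rfl⟩
  rw [← hX] at hq1
  rw [← hq1]
  obtain ⟨h, hh⟩ : ∃ h, h = Nat.card P := ⟨_, rfl⟩
  rw [← hh] at hP2 htm hq4 ⊢
  obtain ⟨r, hr⟩ : ∃ r, r = crk (⊥ : AddSubgroup K) := ⟨_, rfl⟩
  have hkb : P = (⊥ : AddSubgroup K).comap π := by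
    ext x
    rw [AddSubgroup.mem_comap, AddSubgroup.mem_bot, hk]
  have hrP : crk P = r := by
    rw [hr, ← crk_comap_eq π hs ⊥, ← hkb]
  have hr1 : 1 ≤ r := hrP ▸ crk_pos hPT
  have hrt : r ≤ t := by
    rw [hr, ← hq6]
    exact crk_bot_le _ _ hq5
  have hXK : X < Nat.card K := by
    have := Fintype.ofFinite K
    rw [Nat.card_eq_fintype_card, ← card_univ, hX]
    refine card_lt_card ⟨subset_univ _, fun hsub => ?_⟩
    have hall : ∀ x : K, x ∈ (FS (A.filter fun i => (id i : G) ∉ P) fun i => π (id i)) := fun x => hsub (mem_univ x)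
    apply hPT
    rw [eq_top_iff]
    intro x _
    rw [← hk]
    exact hq2 _ fun y _ => hall _
  rcases level X r hr1 hXK with hG | ⟨m, H, hm1, hmr, hG, hHm, hmin, hHX⟩
  · -- top level
    have h1 := hSm K G h r _ _ hP2 hr1 hq3 hq4 hq2 hq5 (hX ▸ hG)
    rw [hq6, ← hX] at h1
    refine (upx_le_valr _ P hPT).trans ?_
    unfold valr
    rw [← hh, hrP]
    calc h * 2 ^ (r - 1) * cf (2 * h) (max 1 (A.card + 2 - h - r))
        = h * (2 ^ (r - 1) * cf (2 * h) (max 1 (A.card + 2 - h - r))) := by ring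
      _ ≤ h * (2 ^ (r - 1) * cf (2 * h) (t + 1 - r)) := by
          refine Nat.mul_le_mul_left _ (Nat.mul_le_mul_left _ (all_Nm1.2.2.2.1 _ _ _ ?_))
          omega
      _ ≤ h * X := Nat.mul_le_mul_left _ h1
  · -- level `m < r`
    have hHT : H ≠ ⊤ := by
      rintro rfl
      rw [crk_top] at hHm
      omega
    obtain ⟨Q, hQ⟩ : ∃ Q, Q = H.comap π := ⟨_, rfl⟩
    have hQT : Q ≠ ⊤ := hQ ▸ comap_ne_top π hs H hHT
    have hQm : crk Q = m := by rw [hQ, crk_comap_eq π hs, hHm]
    obtain ⟨l, hl⟩ : ∃ l, l = Nat.card H := ⟨_, rfl⟩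
    have hl1 : 1 ≤ l := hl ▸ Nat.card_pos
    have hQc : Nat.card Q = h * l := by
      rw [hQ, card_comap P π hs hc H, hh, hl]
    refine (upx_le_valr _ Q hQT).trans ?_
    unfold valr
    rw [hQc, hQm]
    obtain ⟨d, hd⟩ : ∃ d, m = d + 1 := ⟨m - 1, by omega⟩
    rcases Nat.lt_or_ge (A.card + 2) (h * l + m + 2) with h3 | h3
    · have h4 : max 1 (A.card + 2 - h * l - m) = 1 := by omega
      have h5 : cf (2 * (h * l)) 1 = 2 := by simp [cf]
      rw [h4, h5, hd, Nat.add_sub_cancel]
      rw [← hl, hd] at hHX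
      calc h * l * 2 ^ d * 2 = h * (l * 2 ^ (d + 1)) := by ring
        _ ≤ h * X := Nat.mul_le_mul_left _ hHX
    · have h4 : max 1 (A.card + 2 - h * l - m) = A.card + 2 - h * l - m := by omega
      have h6 : h * l = h * (l - 1) + h := by
        obtain ⟨k, rfl⟩ : ∃ k, l = k + 1 := ⟨l - 1, by omega⟩
        rw [Nat.add_sub_cancel, Nat.mul_succ]
      have h1 := hWm K G h m _ _ H hP2 hm1 hq3 hq4 hq2 hq5 (hX ▸ hG) (hr ▸ hmr) hHm hmin (hX ▸ hHX) (by
        rw [← hl, hq6]
        omega)
      rw [hq6, ← hX, ← hl] at h1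
      rw [h4]
      calc h * l * 2 ^ (m - 1) * cf (2 * (h * l)) (A.card + 2 - h * l - m)
          = h * (2 ^ (m - 1) * (l * cf (2 * (h * l)) (A.card + 2 - h * l - m))) := by ring
        _ ≤ h * (2 ^ (m - 1) * (l * cf (2 * (h * l)) (t + 1 + h - m - h * l))) := by
            refine Nat.mul_le_mul_left _ (Nat.mul_le_mul_left _ (Nat.mul_le_mul_left _
              (all_Nm1.2.2.2.1 _ _ _ ?_)))
            omega
        _ ≤ h * X := Nat.mul_le_mul_left _ h1

/-! ### aperiodic sums -/

/-- the case of aperiodic sums, for families with at most two members `± x` -/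
def OneP (G : Type) [AddCommGroup G] [Finite G] : Prop :=
  ∀ (ι : Type) (s : Finset ι) (f : ι → G), (∀ i ∈ s, f i ≠ 0) → Cap 2 s f → Aper (FS s f) → gen s f = ⊤ →
    (⊥ : AddSubgroup G) ≠ ⊤ → upx G s.card ≤ (FS s f).card

/-- the case of aperiodic sums, for families without a member outside the group of the others -/
def OneND (G : Type) [AddCommGroup G] [Finite G] : Prop :=
  ∀ (ι : Type) (s : Finset ι) (f : ι → G), (∀ i ∈ s, f i ≠ 0) → Cap 2 s f → Aper (FS s f) → gen s f = ⊤ →
    (⊥ : AddSubgroup G) ≠ ⊤ → (∀ i ∈ s, gen (s.erase i) f = ⊤) → upx G s.card ≤ (FS s f).card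

theorem thm_ND (hT : St_TopR) (hW : St_WinR) (G : Type) [AddCommGroup G] [Finite G]
    (hr3 : 3 ≤ crk (⊥ : AddSubgroup G)) : OneND G := by
  intro ι s f hne hcap hA hg hbt hge
  obtain ⟨r, hr⟩ : ∃ r, r = crk (⊥ : AddSubgroup G) := ⟨_, rfl⟩
  have hr1 : 1 ≤ r := hr ▸ crk_pos hbt
  have hrt : r ≤ s.card := by
    rw [hr]
    exact crk_bot_le s f hg
  have hX : (FS s f).card < Nat.card G := by
    have := Fintype.ofFinite G
    rw [Nat.card_eq_fintype_card, ← card_univ]
    refine card_lt_card ⟨subset_univ _, fun hsub => ?_⟩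
    apply hbt
    symm
    rw [AddSubgroup.eq_bot_iff_forall]
    intro x _
    exact hA _ fun y _ => hsub (mem_univ _)
  rcases level (FS s f).card r hr1 hX with hG | ⟨m, H, hm1, hmr, hG, hHm, hmin, hHX⟩
  · rcases hT G ι r s f hr (hr ▸ hr3) hne hcap hA hg hge hG with h | ⟨h1, h2, h3⟩ | ⟨h1, h2, h3⟩ | ⟨h1, h2, h3⟩
    · refine (upx_le_valr _ ⊥ hbt).trans ?_
      unfold valr
      rw [AddSubgroup.card_bot, ← hr, one_mul, mul_one]
      have e1 : max 1 (s.card + 2 - 1 - r) = s.card + 1 - r := by omega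
      rw [e1]
      exact h
    · refine (upx_le_Exc _ _ (Or.inl ⟨?_, ?_, rfl⟩)).trans ?_
      · unfold rk
        omega
      · unfold rk
        omega
      · unfold rk
        rw [← hr]
        exact h3
    · refine (upx_le_Exc _ _ (Or.inr (Or.inl ⟨?_, ?_, rfl⟩))).trans ?_
      · unfold rk
        omega
      · unfold rk
        omega
      · unfold rk
        rw [← hr]
        exact h3
    · refine (upx_le_Exc _ _ (Or.inr (Or.inr (Or.inl ⟨?_, ?_, rfl⟩)))).trans ?_
      · unfold rk
        omega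
      · unfold rk
        omega
      · unfold rk
        rw [← hr]
        exact h3
  · exact hW G ι m s f H hr3 hm1 hne hcap hA hg hge hG (hr ▸ hmr) hHm hmin hHX

/-! ### the lower bound -/

/-- **The lower bound for all finite abelian groups.** -/
theorem thm_Low (hSm : St_SmR) (hWm : St_WmR) (G : Type) [AddCommGroup G] [Finite G] (hO : OneP G)
    (A : Finset G) (h0 : (0 : G) ∉ A) (hgen : AddSubgroup.closure (A : Set G) = ⊤) :
    upx G A.card ≤ (FS A (id : G → G)).card := by
  obtain ⟨T, hT⟩ : ∃ T, T = FS A (id : G → G) := ⟨_, rfl⟩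
  obtain ⟨P, hP⟩ : ∃ P, P = per T := ⟨_, rfl⟩
  have hPm : ∀ g, g ∈ P ↔ ∀ x ∈ T, x + g ∈ T := fun g => by rw [hP]; exact mem_per
  have h0T : (0 : G) ∈ T := hT ▸ zero_mem_FS _ _
  by_cases hPT : P = ⊤
  · refine (upx_le_card _).trans ?_
    rw [← hT]
    have := Fintype.ofFinite G
    rw [Nat.card_eq_fintype_card, ← card_univ]
    refine card_le_card fun g _ => ?_
    have h3 : g ∈ P := by rw [hPT]; trivial
    simpa using (hPm g).1 h3 0 h0T
  have hPc : 1 ≤ Nat.card P := Nat.card_pos
  -- the members outside `P`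
  have htm : A.card + 1 ≤ (A.filter fun a => a ∉ P).card + Nat.card P := by
    obtain ⟨HF, hHF, hHc⟩ := fin_exists P
    have h3 : (A.filter fun a => a ∈ P).card + 1 ≤ Nat.card P := by
      rw [← hHc]
      have h4 : (0 : G) ∉ A.filter fun a => a ∈ P := fun h => h0 (mem_filter.1 h).1
      rw [← card_insert_of_notMem h4]
      refine card_le_card fun x hx => ?_
      rw [hHF]
      rcases mem_insert.1 hx with rfl | hx
      · exact P.zero_mem
      · exact (mem_filter.1 hx).2
    have h5 : (A.filter fun a => a ∈ P).card + (A.filter fun a => a ∉ P).card =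
        A.card := card_filter_add_card_filter_not _
    omega
  rcases Nat.lt_or_ge (Nat.card P) 2 with hP1 | hP2
  · -- aperiodic
    have hPb : P = ⊥ := AddSubgroup.eq_bot_of_card_eq P (by omega)
    refine hO G A id (fun i hi h => ?_) (cap_id A) ?_ (by rw [gen_id]; exact hgen) (hPb ▸ hPT)
    · have h' : i = 0 := h
      rw [h'] at hi
      exact h0 hi
    · rw [← hT]
      intro g hg
      have h1 : g ∈ P := (hPm g).2 hg
      rw [hPb] at h1
      exact AddSubgroup.mem_bot.1 h1
  · -- the quotient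
    refine quot_case hSm hWm G (G ⧸ P) (QuotientAddGroup.mk' P) P (QuotientAddGroup.mk'_surjective P)
      (fun x => QuotientAddGroup.eq_zero_iff x) ?_ A hgen (by rw [← hT]; exact hP) hP2 hPT htm
    rw [mul_comm]
    exact AddSubgroup.card_eq_card_quotient_mul_card_addSubgroup P

/-- **The final statement for all finite abelian groups.** -/
theorem thm_All (hSm : St_SmR) (hWm : St_WmR) (hO : ∀ (G : Type) [AddCommGroup G] [Finite G], OneP G)
    (G : Type) [AddCommGroup G] [Finite G] (m : ℕ) :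
    ((sizes G m).Nonempty ↔ rk G ≤ m ∧ m < Nat.card G) ∧ ((sizes G m).Nonempty → rho G m = upx G m) := by
  have hlow : ∀ k ∈ sizes G m, upx G m ≤ k := by
    rintro k ⟨A, h0, hA, hgen, rfl⟩
    rw [ncard_subsetSums]
    subst hA
    exact thm_Low hSm hWm G (hO G) A h0 hgen
  have h1 : (sizes G m).Nonempty ↔ rk G ≤ m ∧ m < Nat.card G := by
    constructor
    · rintro ⟨k, A, h0, hA, hgen, -⟩
      constructor
      · rw [← hA]
        refine crk_le ?_
        rw [bot_sup_eq]
        exact hgen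
      · have := Fintype.ofFinite G
        rw [← hA, Nat.card_eq_fintype_card]
        exact Finset.card_lt_univ_of_notMem h0
    · rintro ⟨h2, h3⟩
      exact (ub_all m h2 h3).1
  refine ⟨h1, fun h2 => ?_⟩
  obtain ⟨h3, h4⟩ := h1.1 h2
  exact le_antisymm (ub_all m h3 h4).2 (hlow _ (Nat.sInf_mem h2))

end Pool.Agent.SNV
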