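import Pool.Agent.SNV.Pre
import Pool.Agent.SNR.WIN3
import Pool.Agent.SZD.All

/-!
# SNV, module All (helper86): the exact value for all finite abelian groups (MP_ec93d3_co)
-/

set_option autoImplicit false

noncomputable section

open Finset Pool.Agent.Helper64.Rho
open scoped Classical Pointwise

namespace Pool.Agent.SNV

/-- **The exact value for all finite abelian groups and all `m`.** -/
theorem all_Final (G : Type) [AddCommGroup G] [Finite G] (m : ℕ) :
    ((sizes G m).Nonempty ↔ Pool.Agent.SNU.rk G ≤ m ∧ m < Nat.card G) ∧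
      ((sizes G m).Nonempty → rho G m = Pool.Agent.SNU.upx G m) :=
  final_of Pool.Agent.SZD.all_ND2 (Pool.Agent.SNR.NDw_of Pool.Agent.SZD.all_ND2) G m

end Pool.Agent.SNV
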