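import Pool.Agent.SNV.Asm
import Pool.Agent.SNR.Lm

/-!
# SNV, module Drop (helper86): members outside the group of the others (MP_ec93d3_co)

`upx_drop`: `upx G (t + 1) ≤ 2 * upx K t` if `G = K + ⟨z⟩`, `K ≠ G`, `rank K ≤ t < |K|`.
`thm_Drop`: `OneND` for all groups implies `OneP` for all groups.
-/

set_option autoImplicit false

noncomputable section

open Finset Pool.Agent.Helper64.Rho
open scoped Classical Pointwise

namespace Pool.Agent.SNV

open Pool.Agent.SDG Pool.Agent.SNW Pool.Agent.SNR Pool.Agent.SNU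

section
variable {G K : Type} [AddCommGroup G] [Finite G] [AddCommGroup K] [Finite K]

theorem crk_map_pos (φ : K →+ G) (hr : φ.range ≠ ⊤) (M : AddSubgroup K) : M.map φ ≠ ⊤ := by
  intro h
  apply hr
  rw [eq_top_iff, ← h]
  rintro _ ⟨x, -, rfl⟩
  exact ⟨x, rfl⟩

/-- the value of a subgroup -/
theorem valr_drop (φ : K →+ G) (hφ : Function.Injective φ) (z : G)
    (hz : φ.range ⊔ AddSubgroup.zmultiples z = ⊤) (hr : φ.range ≠ ⊤) (t : ℕ) (M : AddSubgroup K) (hM : M ≠ ⊤) :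
    valr (t + 1) (M.map φ) ≤ 2 * valr t M := by
  have h1 : Nat.card (M.map φ) = Nat.card M := AddSubgroup.card_map_of_injective hφ
  have h2 := crk_sub φ z hz M
  have h3 : 1 ≤ crk M := crk_pos hM
  have h4 : 1 ≤ crk (M.map φ) := crk_pos (crk_map_pos φ hr M)
  unfold valr
  rw [h1]
  obtain ⟨a, ha⟩ : ∃ a, a = crk (M.map φ) := ⟨_, rfl⟩
  obtain ⟨b, hb⟩ : ∃ b, b = crk M := ⟨_, rfl⟩
  obtain ⟨h, hh⟩ : ∃ h, h = Nat.card M := ⟨_, rfl⟩
  have hh1 : 1 ≤ h := hh ▸ Nat.card_pos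
  rw [← ha, ← hb, ← hh]
  rw [← ha, ← hb] at h2
  rw [← hb] at h3
  rw [← ha] at h4
  obtain ⟨d, hd⟩ : ∃ d, b + 1 = a + d := ⟨b + 1 - a, by omega⟩
  obtain ⟨x, hx⟩ : ∃ x, x = max 1 (t + 2 - h - b) := ⟨_, rfl⟩
  rw [← hx]
  have h5 : cf (2 * h) (max 1 (t + 1 + 2 - h - a)) ≤ 2 ^ d * cf (2 * h) x :=
    (cf_mono (by omega)).trans (cf_pow_mul (2 * h) x d (by omega))
  have h6 : 2 ^ (a - 1) * 2 ^ d = 2 * 2 ^ (b - 1) := by
    rw [← pow_add, ← pow_succ']
    congr 1
    omega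
  calc h * 2 ^ (a - 1) * cf (2 * h) (max 1 (t + 1 + 2 - h - a)) ≤ h * 2 ^ (a - 1) * (2 ^ d * cf (2 * h) x) :=
        Nat.mul_le_mul_left _ h5
    _ = h * (2 ^ (a - 1) * 2 ^ d) * cf (2 * h) x := by ring
    _ = 2 * (h * 2 ^ (b - 1) * cf (2 * h) x) := by rw [h6]; ring

/-- the value of the trivial subgroup if the rank does not grow -/
theorem bot_drop (q c t : ℕ) (hG : (⊥ : AddSubgroup G) ≠ ⊤) (h1 : rk G ≤ q) (ht : t = q + c) :
    upx G (t + 1) ≤ 2 ^ (q - 1) * cf 2 (c + 2) := by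
  refine (upx_le_valr _ ⊥ hG).trans ?_
  unfold valr
  rw [AddSubgroup.card_bot, one_mul, mul_one]
  have h2 : 1 ≤ crk (⊥ : AddSubgroup G) := crk_pos hG
  obtain ⟨a, ha⟩ : ∃ a, a = crk (⊥ : AddSubgroup G) := ⟨_, rfl⟩
  have h3 : a ≤ q := ha ▸ h1
  rw [← ha] at h2 ⊢
  obtain ⟨d, hd⟩ : ∃ d, q = a + d := ⟨q - a, by omega⟩
  have h4 : cf 2 (max 1 (t + 1 + 2 - 1 - a)) ≤ 2 ^ d * cf 2 (c + 2) :=
    (cf_mono (by omega)).trans (cf_pow_mul 2 (c + 2) d (by norm_num))
  calc 2 ^ (a - 1) * cf 2 (max 1 (t + 1 + 2 - 1 - a)) ≤ 2 ^ (a - 1) * (2 ^ d * cf 2 (c + 2)) :=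
        Nat.mul_le_mul_left _ h4
    _ = 2 ^ (q - 1) * cf 2 (c + 2) := by
        rw [← mul_assoc, ← pow_add]
        congr 2
        omega

/-- the order of a sporadic group -/
theorem Spo_card (H : Type) [AddCommGroup H] [Finite H] (t w : ℕ) (h : Spo H t w) :
    Nat.card H = w + 1 ∧ t + 4 ≤ w + 1 := by
  rcases h with ⟨⟨e⟩, rfl, rfl⟩ | ⟨⟨e⟩, rfl, rfl⟩ | ⟨⟨e⟩, rfl, rfl⟩ | ⟨⟨e⟩, rfl, rfl⟩ | ⟨⟨e⟩, rfl, rfl⟩ | ⟨⟨e⟩, rfl, rfl⟩
  · rw [Nat.card_congr e.toEquiv]; simp [Nat.card_prod, Nat.card_zmod]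
  · rw [Nat.card_congr e.toEquiv]; simp [Nat.card_prod, Nat.card_zmod]
  · rw [Nat.card_congr e.toEquiv]; simp [Nat.card_prod, Nat.card_zmod]
  · rw [Nat.card_congr e.toEquiv]; simp [Nat.card_prod, Nat.card_zmod]
  · rw [Nat.card_congr e.toEquiv]; simp [Nat.card_prod, Nat.card_zmod]
  · rw [Nat.card_congr e.toEquiv]; simp [Nat.card_prod, Nat.card_zmod]

theorem Spo_equiv (H L : Type) [AddCommGroup H] [AddCommGroup L] (e : H ≃+ L) (t w : ℕ) (h : Spo H t w) : Spo L t w := by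
  rcases h with ⟨⟨i⟩, h1, h2⟩ | ⟨⟨i⟩, h1, h2⟩ | ⟨⟨i⟩, h1, h2⟩ | ⟨⟨i⟩, h1, h2⟩ | ⟨⟨i⟩, h1, h2⟩ | ⟨⟨i⟩, h1, h2⟩
  · exact Or.inl ⟨⟨e.symm.trans i⟩, h1, h2⟩
  · exact Or.inr (Or.inl ⟨⟨e.symm.trans i⟩, h1, h2⟩)
  · exact Or.inr (Or.inr (Or.inl ⟨⟨e.symm.trans i⟩, h1, h2⟩))
  · exact Or.inr (Or.inr (Or.inr (Or.inl ⟨⟨e.symm.trans i⟩, h1, h2⟩)))
  · exact Or.inr (Or.inr (Or.inr (Or.inr (Or.inl ⟨⟨e.symm.trans i⟩, h1, h2⟩))))
  · exact Or.inr (Or.inr (Or.inr (Or.inr (Or.inr ⟨⟨e.symm.trans i⟩, h1, h2⟩))))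

/-- **the bound for a group with one more generator** -/
theorem upx_drop (φ : K →+ G) (hφ : Function.Injective φ) (z : G)
    (hz : φ.range ⊔ AddSubgroup.zmultiples z = ⊤) (hr : φ.range ≠ ⊤) (t : ℕ) (ht : t < Nat.card K) :
    upx G (t + 1) ≤ 2 * upx K t := by
  have hG : (⊥ : AddSubgroup G) ≠ ⊤ := by
    intro h
    apply hr
    rw [eq_top_iff, ← h]
    exact bot_le
  have hrk : rk G ≤ rk K + 1 := by
    have h1 := crk_sub φ z hz ⊥
    rw [AddSubgroup.map_bot] at h1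
    exact h1
  have h1 : upx K t ∈ ({Nat.card K} ∪ {v | ∃ H : AddSubgroup K, H ≠ ⊤ ∧ v = valr t H} ∪ {v | Exc K t v} : Set ℕ) :=
    Nat.sInf_mem ⟨_, Or.inl (Or.inl rfl)⟩
  rcases h1 with (h1 | ⟨M, hM, h1⟩) | h1
  · -- the value `|K|`
    have h1' : upx K t = Nat.card K := h1
    rw [h1']
    refine (upx_le_valr _ φ.range hr).trans ?_
    unfold valr
    have h2 : Nat.card φ.range = Nat.card K := by
      rw [AddMonoidHom.range_eq_map, AddSubgroup.card_map_of_injective hφ, AddSubgroup.card_top]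
    have h3 : crk φ.range = 1 := by
      apply le_antisymm
      · have h4 := crk_sup_le φ.range z
        rwa [hz, crk_top] at h4
      · exact crk_pos hr
    rw [h2, h3]
    have h4 : max 1 (t + 1 + 2 - Nat.card K - 1) = 1 := by omega
    rw [h4, cf_one, Nat.sub_self, pow_zero, mul_one, mul_comm]
  · rw [h1]
    exact (upx_le_valr _ _ (crk_map_pos φ hr M)).trans (valr_drop φ hφ z hz hr t M hM)
  · have h1' : Exc K t (upx K t) := h1
    rcases h1' with ⟨h2, h3, h4⟩ | ⟨h2, h3, h4⟩ | ⟨h2, h3, h4⟩ | ⟨M, t', w, hS, h3, h4⟩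
    · obtain ⟨q, hq⟩ : ∃ q, rk K = q + 2 := ⟨rk K - 2, by omega⟩
      rw [h4, hq, Nat.add_sub_cancel]
      rcases Nat.lt_or_ge (rk K) (rk G) with h5 | h5
      · refine (upx_le_Exc (t + 1) (9 * 2 ^ (rk G - 2)) (Or.inl ⟨by omega, by omega, rfl⟩)).trans ?_
        have h6 : rk G - 2 = q + 1 := by omega
        rw [h6, pow_succ]
        omega
      · refine (bot_drop (rk K) 2 t hG h5 h3).trans ?_
        have h6 : rk K - 1 = q + 1 := by omega
        have h7 : cf 2 (2 + 2) = 7 := by decide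
        rw [h6, h7, pow_succ]
        omega
    · obtain ⟨q, hq⟩ : ∃ q, rk K = q + 2 := ⟨rk K - 2, by omega⟩
      rw [h4, hq, Nat.add_sub_cancel]
      rcases Nat.lt_or_ge (rk K) (rk G) with h5 | h5
      · refine (upx_le_Exc (t + 1) (19 * 2 ^ (rk G - 2)) (Or.inr (Or.inl ⟨by omega, by omega, rfl⟩))).trans ?_
        have h6 : rk G - 2 = q + 1 := by omega
        rw [h6, pow_succ]
        omega
      · refine (bot_drop (rk K) 4 t hG h5 h3).trans ?_
        have h6 : rk K - 1 = q + 1 := by omega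
        have h7 : cf 2 (4 + 2) = 13 := by decide
        rw [h6, h7, pow_succ]
        omega
    · obtain ⟨q, hq⟩ : ∃ q, rk K = q + 3 := ⟨rk K - 3, by omega⟩
      rw [h4, hq, Nat.add_sub_cancel]
      rcases Nat.lt_or_ge (rk K) (rk G) with h5 | h5
      · refine (upx_le_Exc (t + 1) (27 * 2 ^ (rk G - 3)) (Or.inr (Or.inr (Or.inl ⟨by omega, by omega, rfl⟩)))).trans ?_
        have h6 : rk G - 3 = q + 1 := by omega
        rw [h6, pow_succ]
        omega
      · refine (bot_drop (rk K) 3 t hG h5 h3).trans ?_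
        have h6 : rk K - 1 = q + 2 := by omega
        have h7 : cf 2 (3 + 2) = 10 := by decide
        rw [h6, h7, pow_add]
        omega
    · -- sporadic subgroup
      have hS' : Spo (M.map φ) t' w := Spo_equiv _ _ (M.equivMapOfInjective φ hφ) t' w hS
      obtain ⟨h5, h6⟩ := Spo_card M t' w hS
      have h7 := crk_sub φ z hz M
      have h8 : 1 ≤ crk (M.map φ) := crk_pos (crk_map_pos φ hr M)
      rw [h4]
      obtain ⟨b, hb⟩ : ∃ b, b = crk M := ⟨_, rfl⟩
      obtain ⟨a, ha⟩ : ∃ a, a = crk (M.map φ) := ⟨_, rfl⟩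
      rw [← hb] at h3 h7 ⊢
      rw [← ha] at h7 h8
      rcases Nat.lt_or_ge b a with h9 | h9
      · have h10 : a = b + 1 := by omega
        refine (upx_le_Exc (t + 1) (w * 2 ^ crk (M.map φ)) (Or.inr (Or.inr (Or.inr
          ⟨M.map φ, t', w, hS', by rw [← ha]; omega, rfl⟩)))).trans ?_
        rw [← ha, h10, pow_succ]
        exact le_of_eq (by ring)
      · refine (upx_le_valr _ _ (crk_map_pos φ hr M)).trans ?_
        unfold valr
        have h10 : Nat.card (M.map φ) = Nat.card M := AddSubgroup.card_map_of_injective hφ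
        rw [h10, ← ha, h5]
        obtain ⟨d, hd⟩ : ∃ d, b = a + d := ⟨b - a, by omega⟩
        have h11 : cf (2 * (w + 1)) (max 1 (t + 1 + 2 - (w + 1) - a)) ≤ 2 ^ d * cf (2 * (w + 1)) 1 :=
          (cf_mono (by omega)).trans (cf_pow_mul (2 * (w + 1)) 1 d (by omega))
        rw [cf_one] at h11
        have h12 : 2 ^ (a - 1) * (2 ^ d * 2) = 2 ^ b := by
          rw [← pow_succ, ← pow_add]
          congr 1
          omega
        calc (w + 1) * 2 ^ (a - 1) * cf (2 * (w + 1)) (max 1 (t + 1 + 2 - (w + 1) - a))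
            ≤ (w + 1) * 2 ^ (a - 1) * (2 ^ d * 2) := Nat.mul_le_mul_left _ h11
          _ = (w + 1) * 2 ^ b := by rw [mul_assoc, h12]
          _ ≤ 2 * (w * 2 ^ b) := by
              have h13 : 1 ≤ w := by omega
              have h14 : 0 < 2 ^ b := Nat.two_pow_pos b
              nlinarith

end

theorem cap_res {G H ι : Type} [AddCommGroup G] [AddCommGroup H] (φ : H →+ G) (s : Finset ι) (f : ι → G)
    (f1 : ι → H) (g : ℕ) (hf : ∀ i ∈ s, φ (f1 i) = f i) (hc : Cap g s f) : Cap g s f1 := by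
  intro x
  refine (card_le_card ?_).trans (hc (φ x))
  intro i hi
  rw [mem_filter] at hi ⊢
  refine ⟨hi.1, ?_⟩
  rw [← hf i hi.1]
  rcases hi.2 with h | h
  · left
    rw [h]
  · right
    rw [h, map_neg]

/-- **Reduction to the families without a member outside the group of the others.** -/
theorem thm_Drop (hND : ∀ (G : Type) [AddCommGroup G] [Finite G], OneND G) :
    ∀ (G : Type) [AddCommGroup G] [Finite G], OneP G := by
  have main : ∀ (n : ℕ) (G ι : Type) [AddCommGroup G] [Finite G] (s : Finset ι) (f : ι → G), s.card = n →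
      (∀ i ∈ s, f i ≠ 0) → Cap 2 s f → Aper (FS s f) → gen s f = ⊤ → (⊥ : AddSubgroup G) ≠ ⊤ →
        upx G s.card ≤ (FS s f).card := by
    intro n
    induction n with
    | zero =>
      intro G ι _ _ s f hn h0 hc hA hg hbt
      exact hND G ι s f h0 hc hA hg hbt fun i hi => by
        rw [card_eq_zero] at hn
        rw [hn] at hi
        exact absurd hi (notMem_empty _)
    | succ n ih =>
      intro G ι _ _ s f hn h0 hc hA hg hbt
      by_cases hge : ∀ i ∈ s, gen (s.erase i) f = ⊤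
      · exact hND G ι s f h0 hc hA hg hbt hge
      · push Not at hge
        obtain ⟨i, hi, hgi⟩ := hge
        have hfi : f i ∉ gen (s.erase i) f := by
          intro h
          exact hgi (((all_Ba1 G ι f).2.2.2.2.2.1 s i hi h).trans hg)
        have h2 : (FS s f).card = 2 * (FS (s.erase i) f).card := (all_Ba1 G ι f).2.2.2.1 s i hi hfi
        obtain ⟨H, _, _, φ, f1, hφ, hr, hf1, hcard, hg1⟩ := res (s.erase i) f _ rfl
        have h01 := ne_res φ (s.erase i) f f1 hf1 fun k hk => h0 k (mem_of_mem_erase hk)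
        have hA1 := aper_res φ hφ (s.erase i) f f1 hf1 ((all_Ba1 G ι f).2.1 s (s.erase i) (erase_subset _ _) hA)
        have hc1 : Cap 2 (s.erase i) f1 := by
          refine cap_res φ (s.erase i) f f1 2 hf1 ?_
          intro x
          exact (card_le_card (filter_subset_filter _ (erase_subset _ _))).trans (hc x)
        have hz : φ.range ⊔ AddSubgroup.zmultiples (f i) = ⊤ := by
          rw [eq_top_iff, ← hg, hr]
          conv_lhs => unfold gen
          rw [AddSubgroup.closure_le]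
          rintro _ ⟨k, hk, rfl⟩
          by_cases hki : k = i
          · subst hki
            exact AddSubgroup.mem_sup_right (AddSubgroup.mem_zmultiples _)
          · exact AddSubgroup.mem_sup_left (P1_mem_gen (mem_erase.2 ⟨hki, mem_coe.1 hk⟩))
        have hcn : (s.erase i).card = n := by
          rw [card_erase_of_mem hi, hn, Nat.add_sub_cancel]
        have hlt : (s.erase i).card < Nat.card H := by
          have h3 := (all_Sm H ι (s.erase i) f1 h01 hA1).1
          have := Fintype.ofFinite H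
          have h4 : (FS (s.erase i) f1).card ≤ Nat.card H := by
            rw [Nat.card_eq_fintype_card]
            exact card_le_univ _
          omega
        have hd := upx_drop φ hφ (f i) hz (by rw [hr]; exact hgi) (s.erase i).card hlt
        have hs : (s.erase i).card + 1 = s.card := by omega
        rw [hs] at hd
        refine hd.trans ?_
        rw [h2, ← hcard]
        refine Nat.mul_le_mul_left _ ?_
        by_cases hHb : (⊥ : AddSubgroup H) = ⊤
        · have h5 : Nat.card H = 1 := by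
            rw [← AddSubgroup.card_top (G := H), ← hHb, AddSubgroup.card_bot]
          refine (upx_le_card _).trans ?_
          rw [h5]
          exact card_pos.2 ⟨0, zero_mem_FS _ _⟩
        · exact ih H ι (s.erase i) f1 hcn h01 hc1 hA1 hg1 hHb
  intro G _ _ ι s f h0 hc hA hg hbt
  exact main s.card G ι s f rfl h0 hc hA hg hbt

end Pool.Agent.SNV
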