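import Pool.Agent.SNV.Drop
import Pool.Agent.SNT.M1

/-!
# SNV, module Fam (helper86): families with at most two members `± x` and sets (MP_ec93d3_co)
-/

set_option autoImplicit false

noncomputable section

open Finset Pool.Agent.Helper64.Rho
open scoped Classical Pointwise

namespace Pool.Agent.SNV

open Pool.Agent.SDG Pool.Agent.SNW Pool.Agent.SNR Pool.Agent.SNU

/-- signs that make the members different -/
theorem signs {G ι : Type} [AddCommGroup G] (f : ι → G) (s : Finset ι) (h2 : ∀ i ∈ s, f i ≠ - f i)
    (hc : Cap 2 s f) : ∃ f' : ι → G, (∀ i ∈ s, f' i = f i ∨ f' i = - f i) ∧ ∀ i ∈ s, ∀ j ∈ s, f' i = f' j → i = j := by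
  induction s using Finset.induction_on with
  | empty => exact ⟨f, by simp, by simp⟩
  | insert a s ha ih =>
    obtain ⟨f', h3, h4⟩ := ih (fun i hi => h2 i (mem_insert_of_mem hi)) (by
      intro x
      exact (card_le_card (filter_subset_filter _ (subset_insert _ _))).trans (hc x))
    obtain ⟨v, hv⟩ : ∃ v : G, v = if ∃ j ∈ s, f' j = f a then - f a else f a := ⟨_, rfl⟩
    have hva : v = f a ∨ v = - f a := by
      rw [hv]
      split_ifs
      · exact Or.inr rfl
      · exact Or.inl rfl
    have hvs : ∀ k ∈ s, f' k ≠ v := by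
      intro k hk hkv
      by_cases hex : ∃ j ∈ s, f' j = f a
      · rw [if_pos hex] at hv
        obtain ⟨j, hj, hjf⟩ := hex
        have hjk : j ≠ k := by
          rintro rfl
          exact h2 a (mem_insert_self _ _) (hjf.symm.trans (hkv.trans hv))
        have hcls : ∀ i ∈ s, (f' i = f a ∨ f' i = - f a) → f i = f a ∨ f i = - f a := by
          intro i hi h5
          rcases h3 i hi with h6 | h6
          · rw [← h6]
            exact h5
          · have h7 : f i = - f' i := by rw [h6, neg_neg]
            rcases h5 with h5 | h5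
            · right
              rw [h7, h5]
            · left
              rw [h7, h5, neg_neg]
        have hsub : ({a, j, k} : Finset ι) ⊆ (insert a s).filter fun i => f i = f a ∨ f i = - f a := by
          intro i hi
          rw [mem_insert, mem_insert, mem_singleton] at hi
          rcases hi with rfl | rfl | rfl
          · exact mem_filter.2 ⟨mem_insert_self _ _, Or.inl rfl⟩
          · exact mem_filter.2 ⟨mem_insert_of_mem hj, hcls i hj (Or.inl hjf)⟩
          · exact mem_filter.2 ⟨mem_insert_of_mem hk, hcls i hk (Or.inr (hkv.trans hv))⟩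
        have h5 : ({a, j, k} : Finset ι).card = 3 :=
          card_eq_three.2 ⟨a, j, k, fun h => ha (h ▸ hj), fun h => ha (h ▸ hk), hjk, rfl⟩
        have h6 := (card_le_card hsub).trans (hc (f a))
        omega
      · rw [if_neg hex] at hv
        exact hex ⟨k, hk, hkv.trans hv⟩
    refine ⟨fun i => if i = a then v else f' i, ?_, ?_⟩
    · intro i hi
      by_cases hia : i = a
      · simp only [hia, if_true]
        exact hva
      · simp only [hia, if_false]
        exact h3 i ((mem_insert.1 hi).resolve_left hia)
    · intro i hi j hj hij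
      by_cases hia : i = a
      · by_cases hja : j = a
        · rw [hia, hja]
        · simp only [hia, hja, if_true, if_false] at hij
          exact absurd hij.symm (hvs j ((mem_insert.1 hj).resolve_left hja))
      · by_cases hja : j = a
        · simp only [hia, hja, if_true, if_false] at hij
          exact absurd hij (hvs i ((mem_insert.1 hi).resolve_left hia))
        · simp only [hia, hja, if_false] at hij
          exact h4 i ((mem_insert.1 hi).resolve_left hia) j ((mem_insert.1 hj).resolve_left hja) hij

/-- the sums of an injective family are the sums of a set -/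
theorem FS_inj {G ι : Type} [AddCommGroup G] (s : Finset ι) (f : ι → G) (hf : ∀ i ∈ s, ∀ j ∈ s, f i = f j → i = j) :
    FS (s.image f) (id : G → G) = FS s f := by
  ext x
  rw [mem_FS, mem_FS]
  constructor
  · rintro ⟨t, ht, rfl⟩
    have h1 : t = (s.filter fun p => f p ∈ t).image f := by
      ext y
      rw [mem_image]
      constructor
      · intro hy
        obtain ⟨p, hp, rfl⟩ := mem_image.1 (ht hy)
        exact ⟨p, mem_filter.2 ⟨hp, hy⟩, rfl⟩
      · rintro ⟨p, hp, rfl⟩
        exact (mem_filter.1 hp).2
    refine ⟨s.filter fun p => f p ∈ t, filter_subset _ _, ?_⟩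
    conv_rhs => rw [h1]
    rw [sum_image]
    · rfl
    · intro p hp q hq hpq
      exact hf p (mem_filter.1 (mem_coe.1 hp)).1 q (mem_filter.1 (mem_coe.1 hq)).1 hpq
  · rintro ⟨t, ht, rfl⟩
    refine ⟨t.image f, image_subset_image ht, ?_⟩
    rw [sum_image]
    · rfl
    · intro p hp q hq hpq
      exact hf p (ht (mem_coe.1 hp)) q (ht (mem_coe.1 hq)) hpq

/-- **from families to sets** -/
theorem fam_set {G ι : Type} [AddCommGroup G] (s : Finset ι) (f : ι → G) (h0 : ∀ i ∈ s, f i ≠ 0)
    (hc : Cap 2 s f) (hA : Aper (FS s f)) :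
    ∃ A : Finset G, (0 : G) ∉ A ∧ A.card = s.card ∧ AddSubgroup.closure (A : Set G) = gen s f ∧
      (FS A (id : G → G)).card = (FS s f).card ∧ Aper (FS A (id : G → G)) := by
  obtain ⟨f', h1, h2⟩ := signs f s (fun i hi => (all_Ba1 G ι f).2.2.2.2.1 s i hi hA (h0 i hi)) hc
  obtain ⟨g1, g2, -, g4, -⟩ := Pool.Agent.SSC.mdr_Sg G ι s f f' h1
  refine ⟨s.image f', ?_, ?_, ?_, ?_, ?_⟩
  · intro h3
    obtain ⟨i, hi, hi0⟩ := mem_image.1 h3
    rcases h1 i hi with h4 | h4
    · exact h0 i hi (h4 ▸ hi0)
    · exact h0 i hi (neg_eq_zero.1 (h4 ▸ hi0))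
  · refine card_image_of_injOn fun i hi j hj hij => ?_
    exact h2 i (mem_coe.1 hi) j (mem_coe.1 hj) hij
  · rw [← g4]
    unfold gen
    rw [coe_image]
  · rw [FS_inj s f' h2, g1]
  · rw [FS_inj s f' h2]
    exact g2 hA

end Pool.Agent.SNV
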