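import Pool.Agent.SNV.R2
import Pool.Agent.SZC.Defs

/-!
# SNV, module L1 (helper86): level 1, `h = 1`, rank at least three (MP_ec93d3_co)

`win1`: the lower bound `upx` for families of level exactly 1 from `M1P G (l0 G - 1)` and `NF3 G`.
-/

set_option autoImplicit false

noncomputable section

open Finset Pool.Agent.Helper64.Rho
open scoped Classical Pointwise

namespace Pool.Agent.SNV

open Pool.Agent.SDG Pool.Agent.SNW Pool.Agent.SNR Pool.Agent.SNU

section
variable {G : Type} [AddCommGroup G] [Finite G]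

/-- the least order of a proper subgroup with cyclic quotient -/
theorem card_l0 (H : AddSubgroup G) (hr : 2 ≤ crk (⊥ : AddSubgroup G)) (hH : crk H = 1)
    (hmin : ∀ L : AddSubgroup G, crk L = 1 → Nat.card H ≤ Nat.card L) : Nat.card H = l0 G := by
  have hHT : H ≠ ⊤ := by
    rintro rfl
    rw [crk_top] at hH
    omega
  apply le_antisymm
  · obtain ⟨L, hL1, hL2⟩ := exp_quot G
    rw [← hL2]
    apply hmin
    refine crk_one L ?_ hL1
    rintro rfl
    rw [AddSubgroup.card_top] at hL2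
    have h1 := l0_mul G
    have h2 : 0 < Nat.card G := Nat.card_pos
    have h3 : AddMonoid.exponent G = 1 := by
      rw [← hL2] at h1
      nlinarith
    rw [AddMonoid.exp_eq_one_iff] at h3
    have h4 : (⊥ : AddSubgroup G) = ⊤ := Subsingleton.elim _ _
    rw [h4, crk_top] at hr
    omega
  · have hc : IsAddCyclic (G ⧸ H) := by
      by_contra h1
      have := two_le_crk H h1
      omega
    have h1 : Nat.card (G ⧸ H) ∣ AddMonoid.exponent G := by
      rw [← IsAddCyclic.exponent_eq_card (α := G ⧸ H)]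
      exact AddMonoidHom.exponent_dvd (QuotientAddGroup.mk'_surjective H)
    have h2 := AddSubgroup.card_eq_card_quotient_mul_card_addSubgroup H
    apply l0_le
    rw [h2, mul_comm]
    exact Nat.mul_le_mul_left _ (Nat.le_of_dvd (exp_pos G) h1)

theorem l1_num (t l : ℕ) (hl : 2 ≤ l) (ht : l + 1 ≤ t) : l * cf (2 * l) (t + 1 - l) ≤ pn t := by
  unfold pn
  split_ifs with h4 h6
  · subst h4
    have h1 : l = 2 ∨ l = 3 := by omega
    rcases h1 with rfl | rfl <;> decide
  · subst h6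
    have h1 : l = 2 ∨ l = 3 ∨ l = 4 ∨ l = 5 := by omega
    rcases h1 with rfl | rfl | rfl | rfl <;> decide
  · have h1 := Up_num 1 l (t - 1) le_rfl hl (by omega)
    rw [one_mul, mul_one] at h1
    have h2 : t - 1 + 1 + 1 - l = t + 1 - l := by omega
    rw [h2] at h1
    exact h1

/-- order of `H + ⟨x⟩` -/
theorem card_sup_z (H : AddSubgroup G) (x : G) :
    Nat.card (H ⊔ AddSubgroup.zmultiples x : AddSubgroup G) = Nat.card H * addOrderOf (QuotientAddGroup.mk x : G ⧸ H) := by
  have h1 : H ⊔ AddSubgroup.zmultiples x = (AddSubgroup.zmultiples (QuotientAddGroup.mk x : G ⧸ H)).comap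
      (QuotientAddGroup.mk' H) := by
    apply le_antisymm
    · apply sup_le
      · intro y hy
        rw [AddSubgroup.mem_comap, QuotientAddGroup.mk'_apply, (QuotientAddGroup.eq_zero_iff y).2 hy]
        exact AddSubgroup.zero_mem _
      · rw [AddSubgroup.zmultiples_le, AddSubgroup.mem_comap]
        exact AddSubgroup.mem_zmultiples _
    · intro y hy
      rw [AddSubgroup.mem_comap, QuotientAddGroup.mk'_apply, AddSubgroup.mem_zmultiples_iff] at hy
      obtain ⟨k, hk⟩ := hy
      rw [← QuotientAddGroup.mk_zsmul, QuotientAddGroup.eq] at hk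
      have h2 : y = (-(k • x) + y) + k • x := by abel
      rw [h2]
      exact AddSubgroup.add_mem_sup hk (AddSubgroup.zsmul_mem_zmultiples x k)
  have h2 := Nat.card_congr (QuotientAddGroup.preimageMkEquivAddSubgroupProdSet H
    ((AddSubgroup.zmultiples (QuotientAddGroup.mk x : G ⧸ H)) : Set (G ⧸ H)))
  rw [Nat.card_prod] at h2
  have h3 : Nat.card (AddSubgroup.zmultiples (QuotientAddGroup.mk x : G ⧸ H)) =
      addOrderOf (QuotientAddGroup.mk x : G ⧸ H) := Nat.card_zmultiples _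
  rw [h1, ← h3]
  exact h2

/-- `c ↦ c y` on `ZMod n` -/
theorem zm_hom (n : ℕ) (y : G) (hy : n • y = 0) : ∃ φ : ZMod n →+ G, φ 1 = y := by
  refine ⟨ZMod.lift n ⟨zmultiplesHom G y, ?_⟩, ?_⟩
  · rw [zmultiplesHom_apply, natCast_zsmul, hy]
  · have h1 : ((1 : ℤ) : ZMod n) = 1 := Int.cast_one
    rw [← h1, ZMod.lift_coe, zmultiplesHom_apply, one_smul]

/-- the group of order 16, exponent 4 and rank at least 3 -/
theorem iso_224 (hn : Nat.card G = 16) (he : AddMonoid.exponent G = 4) (hr : 3 ≤ crk (⊥ : AddSubgroup G)) :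
    Nonempty (G ≃+ ZMod 2 × ZMod 2 × ZMod 4) := by
  have h4 : ∀ z : G, z + z + (z + z) = 0 := by
    intro z
    have h1 := AddMonoid.exponent_nsmul_eq_zero (G := G) z
    rw [he] at h1
    rw [← h1]
    abel
  obtain ⟨x, hx⟩ := AddMonoid.exists_addOrderOf_eq_exponent (AddMonoid.ExponentExists.of_finite (G := G))
  rw [he] at hx
  have hxx : x + x ≠ 0 := by
    intro h
    have h1 : (2 : ℕ) • x = 0 := by rw [two_nsmul, h]
    have h2 := addOrderOf_dvd_of_nsmul_eq_zero h1
    rw [hx] at h2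
    omega
  obtain ⟨X, hX⟩ : ∃ X, X = AddSubgroup.zmultiples x := ⟨_, rfl⟩
  have hxX : x ∈ X := hX ▸ AddSubgroup.mem_zmultiples x
  have hmemX : ∀ z ∈ X, z = 0 ∨ z = x ∨ z = x + x ∨ z = x + x + x := by
    intro z hz
    rw [hX] at hz
    obtain ⟨k, hk⟩ := AddSubgroup.mem_zmultiples_iff.1 hz
    have h1 : (4 : ℤ) • x = 0 := by
      have h2 := addOrderOf_nsmul_eq_zero x
      rw [hx] at h2
      exact_mod_cast h2
    have h2 : k • x = (k % 4) • x := by
      conv_lhs => rw [← Int.mul_ediv_add_emod k 4]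
      rw [add_smul, mul_comm, mul_smul, h1, smul_zero, zero_add]
    have h3 : k % 4 = 0 ∨ k % 4 = 1 ∨ k % 4 = 2 ∨ k % 4 = 3 := by omega
    rw [← hk, h2]
    rcases h3 with h3 | h3 | h3 | h3 <;> rw [h3]
    · left
      exact zero_smul _ _
    · right; left
      exact one_smul _ _
    · right; right; left
      exact two_zsmul x
    · right; right; right
      have : (3 : ℤ) = 1 + 1 + 1 := by norm_num
      rw [this, add_smul, add_smul, one_smul]
  -- elements of order 2 outside a subgroup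
  have key : ∀ P : AddSubgroup G, X ≤ P → Nat.card P < 16 → (∀ z : G, z + z ∈ X) →
      ∃ y : G, y ∉ P ∧ y + y = 0 := by
    intro P hXP hP hzz
    obtain ⟨z, hz⟩ : ∃ z : G, z ∉ P := by
      by_contra h
      push Not at h
      have h1 : P = ⊤ := by
        rw [eq_top_iff]
        exact fun z _ => h z
      rw [h1, AddSubgroup.card_top, hn] at hP
      omega
    rcases hmemX _ (hzz z) with h | h | h | h
    · exact ⟨z, hz, h⟩
    · exfalso
      have h5 := h4 z
      rw [h] at h5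
      exact hxx h5
    · refine ⟨z - x, fun h5 => hz ?_, ?_⟩
      · have h6 : z = (z - x) + x := by abel
        rw [h6]
        exact P.add_mem h5 (hXP hxX)
      · have h6 : z - x + (z - x) = z + z - (x + x) := by abel
        rw [h6, h, sub_self]
    · exfalso
      have h5 := h4 z
      rw [h] at h5
      have h6 : x + x + x + (x + x + x) = (x + x + (x + x)) + (x + x) := by abel
      rw [h6, h4 x, zero_add] at h5
      exact hxx h5
  have hXc : Nat.card X = 4 := by rw [hX, Nat.card_zmultiples, hx]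
  have hXr : 2 ≤ crk X := by
    have h1 := crk_sup_le (⊥ : AddSubgroup G) x
    rw [bot_sup_eq, ← hX] at h1
    omega
  have hzz : ∀ z : G, z + z ∈ X := by
    intro z
    obtain ⟨o, ho⟩ : ∃ o, o = addOrderOf (QuotientAddGroup.mk z : G ⧸ X) := ⟨_, rfl⟩
    have h1 : o ∣ 4 := by
      rw [ho]
      apply addOrderOf_dvd_of_nsmul_eq_zero
      rw [← QuotientAddGroup.mk_nsmul, QuotientAddGroup.eq_zero_iff]
      have h2 : (4 : ℕ) • z = z + z + (z + z) := by abel
      rw [h2, h4]
      exact X.zero_mem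
    have h2 : o ∣ 2 := by
      by_contra hcon
      have h3 : o = 4 := by
        have h5 := Nat.le_of_dvd (by norm_num) h1
        interval_cases o <;> omega
      have h6 := card_sup_z X z
      rw [← ho, h3, hXc] at h6
      have h7 : X ⊔ AddSubgroup.zmultiples z = ⊤ := AddSubgroup.eq_top_of_card_eq _ (by rw [h6, hn])
      have h8 := crk_sup_le X z
      rw [h7, crk_top] at h8
      omega
    have h3 : (2 : ℕ) • (QuotientAddGroup.mk z : G ⧸ X) = 0 := by
      rw [ho] at h2
      exact addOrderOf_dvd_iff_nsmul_eq_zero.1 h2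
    rw [← QuotientAddGroup.mk_nsmul, QuotientAddGroup.eq_zero_iff, two_nsmul] at h3
    exact h3
  have two : ∀ (P : AddSubgroup G) (y : G), y ∉ P → y + y = 0 →
      Nat.card (P ⊔ AddSubgroup.zmultiples y : AddSubgroup G) = Nat.card P * 2 := by
    intro P y hy hyy
    rw [card_sup_z]
    congr 1
    refine addOrderOf_eq_prime ?_ ?_
    · rw [two_nsmul, ← QuotientAddGroup.mk_add, hyy, QuotientAddGroup.mk_zero]
    · intro h7
      exact hy ((QuotientAddGroup.eq_zero_iff y).1 h7)
  obtain ⟨y1, h11, h12⟩ := key X le_rfl (by omega) hzz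
  obtain ⟨P, hP⟩ : ∃ P, P = X ⊔ AddSubgroup.zmultiples y1 := ⟨_, rfl⟩
  have hPc : Nat.card P = 8 := by rw [hP, two X y1 h11 h12, hXc]
  obtain ⟨y2, h21, h22⟩ := key P (hP ▸ le_sup_left) (by omega) hzz
  have hQc : P ⊔ AddSubgroup.zmultiples y2 = ⊤ :=
    AddSubgroup.eq_top_of_card_eq _ (by rw [two P y2 h21 h22, hPc, hn])
  obtain ⟨φ1, hφ1⟩ := zm_hom 2 y1 (by rw [two_nsmul, h12])
  obtain ⟨φ2, hφ2⟩ := zm_hom 2 y2 (by rw [two_nsmul, h22])
  obtain ⟨φ3, hφ3⟩ := zm_hom 4 x (by
    have h2 : (4 : ℕ) • x = x + x + (x + x) := by abel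
    rw [h2, h4])
  obtain ⟨φ, hφ⟩ : ∃ φ : ZMod 2 × ZMod 2 × ZMod 4 →+ G, φ = φ1.coprod (φ2.coprod φ3) := ⟨_, rfl⟩
  have hr1 : y1 ∈ φ.range := ⟨(1, 0, 0), by rw [hφ]; simp [hφ1]⟩
  have hr2 : y2 ∈ φ.range := ⟨(0, 1, 0), by rw [hφ]; simp [hφ2]⟩
  have hr3 : x ∈ φ.range := ⟨(0, 0, 1), by rw [hφ]; simp [hφ3]⟩
  have hrt : φ.range = ⊤ := by
    rw [eq_top_iff, ← hQc, hP, hX]
    refine sup_le (sup_le ?_ ?_) ?_
    · rw [AddSubgroup.zmultiples_le]
      exact hr3
    · rw [AddSubgroup.zmultiples_le]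
      exact hr1
    · rw [AddSubgroup.zmultiples_le]
      exact hr2
  have hbij : Function.Bijective φ := by
    rw [Nat.bijective_iff_surjective_and_card]
    refine ⟨AddMonoidHom.range_eq_top.1 hrt, ?_⟩
    rw [hn, Nat.card_prod, Nat.card_prod, Nat.card_zmod, Nat.card_zmod]
  exact ⟨(AddEquiv.ofBijective φ hbij).symm⟩

/-- **level 1** -/
theorem win1 (hr : 3 ≤ crk (⊥ : AddSubgroup G)) (hM : M1P G (l0 G - 1)) (hN : Pool.Agent.SZC.NF3 G)
    {ι : Type} (s : Finset ι) (f : ι → G) (H : AddSubgroup G) (h0 : ∀ i ∈ s, f i ≠ 0) (hc : Cap 2 s f)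
    (hA : Aper (FS s f)) (hg : gen s f = ⊤) (hH : crk H = 1)
    (hmin : ∀ L : AddSubgroup G, crk L = 1 → Nat.card H ≤ Nat.card L) (hHX : Nat.card H * 2 ≤ (FS s f).card) :
    upx G s.card ≤ (FS s f).card := by
  have hHT : H ≠ ⊤ := by
    rintro rfl
    rw [crk_top] at hH
    omega
  have hl := card_l0 H (by omega) hH hmin
  have hHb : H ≠ ⊥ := by
    rintro rfl
    omega
  have hl2 : 2 ≤ l0 G := by
    rw [← hl]
    have h1 : 1 < Nat.card H := by
      by_contra hcon
      have h2 : 0 < Nat.card H := Nat.card_pos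
      exact hHb (AddSubgroup.eq_bot_of_card_eq H (by omega))
    exact h1
  have hv : valr s.card H = l0 G * cf (2 * l0 G) (max 1 (s.card + 1 - l0 G)) := by
    unfold valr
    rw [hH, hl, Nat.sub_self, pow_zero, mul_one]
    have h2 : s.card + 2 - l0 G - 1 = s.card + 1 - l0 G := by omega
    rw [h2]
  have hfin : (l0 G + 1 ≤ s.card → l0 G * cf (2 * l0 G) (s.card + 1 - l0 G) ≤ (FS s f).card) →
      upx G s.card ≤ (FS s f).card := by
    intro h1
    refine (upx_le_valr _ H hHT).trans ?_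
    rw [hv]
    rcases Nat.lt_or_ge s.card (l0 G + 1) with h2 | h2
    · have h3 : max 1 (s.card + 1 - l0 G) = 1 := by omega
      rw [h3, cf_one, ← hl]
      exact hHX
    · have h3 : max 1 (s.card + 1 - l0 G) = s.card + 1 - l0 G := by omega
      rw [h3]
      exact h1 h2
  rcases hM ι s f h0 hc hA hg with h1 | h1
  · apply hfin
    intro h2
    rcases min_le_iff.1 h1 with h3 | h3
    · exact (l1_num _ _ hl2 h2).trans h3
    · have h4 := W2_upper 1 (l0 G) s.card le_rfl (by omega) (by omega)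
      rw [one_mul, mul_one] at h4
      omega
  · obtain ⟨A, a0, a1, a2, a3, a4⟩ := fam_set s f h0 hc hA
    rw [hg] at a2
    rw [← a1, ← a3]
    rcases hN A ⟨a0, a2, a4, by rw [a1, a3]; exact h1⟩ with ⟨L, hL, hLv⟩ | ⟨h2, h3, h4, h5⟩
    · exact (upx_le_valr _ L hL).trans hLv
    · rw [h4, h5]
      have h6 : Spo G 6 15 := Or.inr (Or.inr (Or.inr (Or.inl ⟨iso_224 h2 h3 hr, rfl, rfl⟩)))
      have h7 : Spo (⊤ : AddSubgroup G) 6 15 := Spo_equiv G _ AddSubgroup.topEquiv.symm 6 15 h6
      have h8 := upx_le_Exc (G := G) 6 (15 * 2 ^ crk (⊤ : AddSubgroup G))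
        (Or.inr (Or.inr (Or.inr ⟨⊤, 6, 15, h7, by rw [crk_top], rfl⟩)))
      rwa [crk_top, pow_zero, mul_one] at h8

end

end Pool.Agent.SNV
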