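import Pool.Agent.SNV.Fam
import Pool.Agent.SNW.FinR2

/-!
# SNV, module R2 (helper86): groups of rank at most two (MP_ec93d3_co)

`upx_le_bd3`: for a group with two generators `upx G m ≤ bd3 G m` (the value of the theorem for two generators).
`OneP_two`: the lower bound `upx` in groups of rank at most two.
-/

set_option autoImplicit false

noncomputable section

open Finset Pool.Agent.Helper64.Rho
open scoped Classical Pointwise

namespace Pool.Agent.SNV

open Pool.Agent.SDG Pool.Agent.SNW Pool.Agent.SNR Pool.Agent.SNU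

section
variable {G : Type} [AddCommGroup G] [Finite G]

/-- a proper subgroup with cyclic quotient -/
theorem crk_one (H : AddSubgroup G) (hH : H ≠ ⊤) (hc : IsAddCyclic (G ⧸ H)) : crk H = 1 := by
  apply le_antisymm
  · obtain ⟨g, hg⟩ := hc.exists_zsmul_surjective
    obtain ⟨x, rfl⟩ := QuotientAddGroup.mk_surjective g
    have h1 := crk_sup_le H x
    have h2 : H ⊔ AddSubgroup.zmultiples x = ⊤ := by
      rw [eq_top_iff]
      intro z _
      obtain ⟨k, hk⟩ := hg (QuotientAddGroup.mk z)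
      simp only at hk
      rw [← QuotientAddGroup.mk_zsmul, QuotientAddGroup.eq] at hk
      have h3 : z = (-(k • x) + z) + k • x := by abel
      rw [h3]
      exact AddSubgroup.add_mem_sup hk (AddSubgroup.zsmul_mem_zmultiples x k)
    rwa [h2, crk_top] at h1
  · exact crk_pos hH

/-- a subgroup with noncyclic quotient -/
theorem two_le_crk (H : AddSubgroup G) (hc : ¬ IsAddCyclic (G ⧸ H)) : 2 ≤ crk H := by
  by_contra hcon
  obtain ⟨S, hS, hg⟩ := exists_crk H
  apply hc
  obtain ⟨x, hx⟩ : ∃ x : G, (S : Set G) ⊆ AddSubgroup.zmultiples x := by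
    rcases Nat.lt_or_ge S.card 1 with h1 | h1
    · have h2 : S = ∅ := card_eq_zero.1 (by omega)
      exact ⟨0, by rw [h2]; simp⟩
    · obtain ⟨x, hx⟩ := card_eq_one.1 (show S.card = 1 by omega)
      refine ⟨x, ?_⟩
      rw [hx, coe_singleton, Set.singleton_subset_iff]
      exact AddSubgroup.mem_zmultiples x
  refine cyc_gen H x fun z => ?_
  have h1 : z ∈ H ⊔ AddSubgroup.zmultiples x := by
    have h2 : H ⊔ AddSubgroup.closure (S : Set G) ≤ H ⊔ AddSubgroup.zmultiples x :=
      sup_le_sup_left ((AddSubgroup.closure_le _).2 hx) _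
    exact h2 (hg ▸ AddSubgroup.mem_top z)
  obtain ⟨u, hu, v, hv, huv⟩ := AddSubgroup.mem_sup.1 h1
  obtain ⟨k, hk⟩ := AddSubgroup.mem_zmultiples_iff.1 hv
  refine ⟨k, ?_⟩
  rw [hk, ← huv, add_sub_cancel_right]
  exact hu

theorem crk_pair (H : AddSubgroup G) (a b : G) (hab : AddSubgroup.closure {a, b} = ⊤) : crk H ≤ 2 := by
  refine (crk_le (S := {a, b}) ?_).trans card_le_two
  rw [coe_pair, hab, sup_top_eq]

/-- the bounds agree in rank at most two -/
theorem upx_le_bd3 (a b : G) (hab : AddSubgroup.closure {a, b} = ⊤) (m : ℕ) (hm : 1 ≤ m)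
    (hm2 : ¬ IsAddCyclic G → 2 ≤ m) : upx G m ≤ bd3 G m := by
  unfold bd3
  by_cases hx : exl (Nat.card G) (AddMonoid.exponent G) m
  · rw [if_pos hx]
    obtain ⟨d, e, hd, he, hde, hee, hn, ⟨i⟩⟩ := Pool.Agent.SNS.pair_iso G a b hab
    have hsp : ∀ t w : ℕ, Spo G t w → upx G t ≤ w := by
      intro t w h
      have h1 : Spo (⊤ : AddSubgroup G) t w := Spo_equiv G _ AddSubgroup.topEquiv.symm t w h
      have h2 := upx_le_Exc (G := G) t (w * 2 ^ crk (⊤ : AddSubgroup G))
        (Or.inr (Or.inr (Or.inr ⟨⊤, t, w, h1, by rw [crk_top]; rfl, rfl⟩)))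
      rwa [crk_top, pow_zero, mul_one] at h2
    rcases hx with ⟨h1, h2, h3⟩ | ⟨h1, h2, h3⟩ | ⟨h1, h2, h3⟩ | ⟨h1, h2, h3⟩ | ⟨h1, h2, h3⟩ <;>
      rw [h2] at hee <;> subst hee <;> rw [h1] at hn <;> subst h3 <;> rw [h1]
    · obtain rfl : d = 2 := by omega
      exact hsp 4 7 (Or.inl ⟨⟨i⟩, rfl, rfl⟩)
    · obtain rfl : d = 3 := by omega
      exact hsp 4 8 (Or.inr (Or.inl ⟨⟨i⟩, rfl, rfl⟩))
    · obtain rfl : d = 4 := by omega
      exact hsp 6 15 (Or.inr (Or.inr (Or.inl ⟨⟨i⟩, rfl, rfl⟩)))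
    · obtain rfl : d = 3 := by omega
      exact hsp 7 17 (Or.inr (Or.inr (Or.inr (Or.inr (Or.inl ⟨⟨i⟩, rfl, rfl⟩)))))
    · obtain rfl : d = 4 := by omega
      exact hsp 10 31 (Or.inr (Or.inr (Or.inr (Or.inr (Or.inr ⟨⟨i⟩, rfl, rfl⟩)))))
  · rw [if_neg hx]
    have h1 : bd2 G m ∈ ({Nat.card G} ∪ {v | ∃ H : AddSubgroup G, H ≠ ⊤ ∧ v = val2 m H} : Set ℕ) :=
      Nat.sInf_mem ⟨_, Or.inl rfl⟩
    rcases h1 with h1 | ⟨H, hH, h1⟩
    · have h1' : bd2 G m = Nat.card G := h1
      rw [h1']
      exact upx_le_card m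
    · rw [h1]
      unfold val2
      by_cases hc : IsAddCyclic (G ⧸ H)
      · rw [if_pos hc]
        refine (upx_le_valr m H hH).trans (le_of_eq ?_)
        unfold valr
        rw [crk_one H hH hc, Nat.sub_self, pow_zero, mul_one]
        have h2 : m + 2 - Nat.card H - 1 = m + 1 - Nat.card H := by omega
        rw [h2]
      · rw [if_neg hc]
        have hr2 : crk H = 2 := le_antisymm (crk_pair H a b hab) (two_le_crk H hc)
        by_cases hb : H = ⊥
        · rw [if_pos hb]
          have hncG : ¬ IsAddCyclic G := by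
            intro h2
            exact hc (isAddCyclic_of_surjective (QuotientAddGroup.mk' H) (QuotientAddGroup.mk'_surjective _))
          have hm' := hm2 hncG
          have hrk : rk G = 2 := by
            unfold rk
            rw [← hb]
            exact hr2
          unfold pn
          split_ifs with h4 h6
          · refine upx_le_Exc m 9 (Or.inl ⟨by omega, by omega, ?_⟩)
            rw [hrk]
            norm_num
          · refine upx_le_Exc m 19 (Or.inr (Or.inl ⟨by omega, by omega, ?_⟩))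
            rw [hrk]
            norm_num
          · refine (upx_le_valr m H hH).trans (le_of_eq ?_)
            unfold valr
            rw [hr2, hb, AddSubgroup.card_bot]
            have h2 : max 1 (m + 2 - 1 - 2) = m - 1 := by omega
            rw [h2]
            norm_num
        · rw [if_neg hb]
          refine (upx_le_valr m H hH).trans (le_of_eq ?_)
          unfold valr
          rw [hr2]
          have h2 : m + 2 - Nat.card H - 2 = m - Nat.card H := by omega
          rw [h2]
          ring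

/-- **rank at most two** -/
theorem OneP_two (hr : crk (⊥ : AddSubgroup G) ≤ 2) : OneP G := by
  obtain ⟨a, b, hab⟩ : ∃ a b : G, AddSubgroup.closure {a, b} = ⊤ := by
    obtain ⟨S, hS, hg⟩ := exists_crk (⊥ : AddSubgroup G)
    rw [bot_sup_eq] at hg
    obtain ⟨a, b, hab⟩ : ∃ a b : G, (S : Set G) ⊆ {a, b} := by
      rcases Nat.lt_or_ge S.card 2 with h1 | h1
      · rcases Nat.lt_or_ge S.card 1 with h2 | h2
        · have h3 : S = ∅ := card_eq_zero.1 (by omega)
          exact ⟨0, 0, by rw [h3]; simp⟩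
        · obtain ⟨x, hx⟩ := card_eq_one.1 (show S.card = 1 by omega)
          exact ⟨x, x, by rw [hx]; simp⟩
      · obtain ⟨x, y, -, hxy⟩ := card_eq_two.1 (show S.card = 2 by omega)
        exact ⟨x, y, by rw [hxy]; simp⟩
    refine ⟨a, b, ?_⟩
    rw [eq_top_iff, ← hg]
    exact AddSubgroup.closure_mono hab
  intro ι s f h0 hc hA hg hbt
  obtain ⟨A, a0, a1, a2, a3, a4⟩ := fam_set s f h0 hc hA
  rw [hg] at a2
  rw [← a1, ← a3]
  have hA1 : 1 ≤ A.card := by
    rw [Nat.one_le_iff_ne_zero]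
    intro h
    rw [card_eq_zero] at h
    rw [h, coe_empty, AddSubgroup.closure_empty] at a2
    exact hbt a2
  have hmem : (FS A (id : G → G)).card ∈ sizes G A.card := ⟨A, a0, rfl, a2, ncard_subsetSums A⟩
  obtain ⟨h1, h2⟩ := all_Fin3 G a b hab A.card hA1
  obtain ⟨h3, h4⟩ := h1.1 ⟨_, hmem⟩
  refine (upx_le_bd3 a b hab A.card hA1 h4).trans ?_
  rw [← h2 h3 h4]
  exact Nat.sInf_le hmem

end

end Pool.Agent.SNV
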